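import Mathlib

/-!
Exponential moment bound: a large set of rows `X` and a set of columns `Y` in which no value of
coordinate `g` is heavy cannot correlate with a function that has mean zero in coordinate `g`.
-/

set_option autoImplicit false

namespace Pool.Agent.Lib.MP_678664_lc_h67

open Finset

/-- Hoeffding type bound for a finite uniform distribution. -/
theorem exp_moment {S : Type*} [Fintype S] [Nonempty S] (c : S → ℝ) (b t : ℝ)
    (hc : ∀ s, |c s| ≤ b) (h0 : ∑ s, c s = 0) :
    ∑ s, Real.exp (t * c s) ≤ Fintype.card S * Real.exp (2 * t ^ 2 * b ^ 2) := by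
  have hS : (0 : ℝ) < Fintype.card S := by exact_mod_cast Fintype.card_pos
  have h1 : (Fintype.card S : ℝ) ≤ ∑ s, Real.exp (-(t * c s)) := by
    calc (Fintype.card S : ℝ) = ∑ s : S, (-(t * c s) + 1) := by
          rw [Finset.sum_add_distrib, Finset.sum_neg_distrib, ← Finset.mul_sum, h0]
          simp
      _ ≤ ∑ s, Real.exp (-(t * c s)) := Finset.sum_le_sum fun s _ => Real.add_one_le_exp _
  have hpos : 0 ≤ ∑ s, Real.exp (t * c s) := Finset.sum_nonneg fun s _ => (Real.exp_pos _).le
  have h2 : (∑ s, Real.exp (t * c s)) * (Fintype.card S : ℝ)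
      ≤ ∑ s, ∑ s', Real.exp (t * (c s - c s')) := by
    calc (∑ s, Real.exp (t * c s)) * (Fintype.card S : ℝ)
        ≤ (∑ s, Real.exp (t * c s)) * ∑ s', Real.exp (-(t * c s')) :=
          mul_le_mul_of_nonneg_left h1 hpos
      _ = ∑ s, ∑ s', Real.exp (t * (c s - c s')) := by
          rw [Finset.sum_mul_sum]
          refine Finset.sum_congr rfl fun s _ => Finset.sum_congr rfl fun s' _ => ?_
          rw [← Real.exp_add]; congr 1; ring
  have h3 : ∑ s, ∑ s', Real.exp (t * (c s - c s'))
      = ∑ s, ∑ s', Real.cosh (t * (c s - c s')) := by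
    have h4 : ∑ s, ∑ s', Real.exp (t * (c s - c s'))
        = ∑ s, ∑ s', Real.exp (-(t * (c s - c s'))) := by
      rw [Finset.sum_comm]
      refine Finset.sum_congr rfl fun s _ => Finset.sum_congr rfl fun s' _ => ?_
      congr 1; ring
    have h5 : ∑ s, ∑ s', Real.cosh (t * (c s - c s'))
        = (∑ s, ∑ s', Real.exp (t * (c s - c s'))
          + ∑ s, ∑ s', Real.exp (-(t * (c s - c s')))) / 2 := by
      rw [← Finset.sum_add_distrib, Finset.sum_div]
      refine Finset.sum_congr rfl fun s _ => ?_
      rw [← Finset.sum_add_distrib, Finset.sum_div]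
      refine Finset.sum_congr rfl fun s' _ => ?_
      rw [Real.cosh_eq]
    rw [h5, ← h4]; ring
  have h6 : ∑ s, ∑ s', Real.cosh (t * (c s - c s'))
      ≤ ∑ s : S, ∑ s' : S, Real.exp (2 * t ^ 2 * b ^ 2) := by
    refine Finset.sum_le_sum fun s _ => Finset.sum_le_sum fun s' _ => ?_
    refine (Real.cosh_le_exp_half_sq _).trans (Real.exp_le_exp.2 ?_)
    have hb : |c s - c s'| ≤ 2 * b := by
      have := abs_sub (c s) (c s')
      linarith [hc s, hc s']
    have hb2 : (c s - c s') ^ 2 ≤ (2 * b) ^ 2 := by
      rw [← sq_abs]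
      exact pow_le_pow_left₀ (abs_nonneg _) hb 2
    nlinarith [sq_nonneg t]
  have h7 : ∑ s : S, ∑ s' : S, Real.exp (2 * t ^ 2 * b ^ 2)
      = (Fintype.card S : ℝ) * Real.exp (2 * t ^ 2 * b ^ 2) * Fintype.card S := by
    simp [Finset.card_univ]; ring
  have h8 := h2.trans ((h3.le.trans h6).trans h7.le)
  exact le_of_mul_le_mul_right h8 hS

/-- Resampling one coordinate. -/
theorem resample {κ α : Type*} [Fintype κ] [DecidableEq κ] [Fintype α]
    (F : (κ → α) → ℝ) (g : κ) :
    ∑ x : κ → α, ∑ a : α, F (Function.update x g a) = Fintype.card α * ∑ x : κ → α, F x := by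
  let E : ((κ → α) × α) ≃ ((κ → α) × α) :=
    { toFun := fun p => (Function.update p.1 g p.2, p.1 g)
      invFun := fun p => (Function.update p.1 g p.2, p.1 g)
      left_inv := by rintro ⟨x, a⟩; simp
      right_inv := by rintro ⟨x, a⟩; simp }
  calc ∑ x : κ → α, ∑ a : α, F (Function.update x g a)
      = ∑ p : (κ → α) × α, F (E p).1 := by rw [Fintype.sum_prod_type]; rfl
    _ = ∑ p : (κ → α) × α, F p.1 := E.sum_comp (fun p => F p.1)
    _ = Fintype.card α * ∑ x : κ → α, F x := by
        rw [Fintype.sum_prod_type, Finset.mul_sum]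
        simp [Finset.card_univ]

theorem bias {κ α S : Type*} [Fintype κ] [DecidableEq κ] [Fintype α] [DecidableEq α]
    [Fintype S] [Nonempty S] (g : κ) (w : (κ → S) → ℝ) (B : ℝ) (hB : ∀ z, |w z| ≤ B)
    (hw : ∀ z, ∑ s, w (Function.update z g s) = 0)
    (Y : Finset (κ → α)) (L : ℝ) (hL : 0 < L)
    (hY : ∀ v, ((Y.filter fun y => y g = v).card : ℝ) * L ≤ Y.card)
    (X : Finset (κ → α → S)) (T : ℝ)
    (hT : (Fintype.card (κ → α → S) : ℝ) ≤ Real.exp T * X.card) :
    - ((T + 2 * B ^ 2) / √L * X.card * Y.card) ≤ ∑ x ∈ X, ∑ y ∈ Y, w (fun v => x v (y v)) := by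
  classical
  rcases Y.eq_empty_or_nonempty with hYe | hYn
  · subst hYe; simp
  have hYpos : (0 : ℝ) < Y.card := by exact_mod_cast hYn.card_pos
  have hXpos : (0 : ℝ) < X.card := by
    have h1 : (0 : ℝ) < Fintype.card (κ → α → S) := by exact_mod_cast Fintype.card_pos
    by_contra hneg
    have h2 : (X.card : ℝ) = 0 := le_antisymm (not_lt.1 hneg) (Nat.cast_nonneg _)
    rw [h2] at hT
    linarith
  have hsL : 0 < √L := Real.sqrt_pos.2 hL
  set lam : ℝ := √L / Y.card with hlam
  have hlampos : 0 < lam := div_pos hsL hYpos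
  let A : (κ → α → S) → ℝ := fun x => ∑ y ∈ Y, w (fun v => x v (y v))
  -- moment bound over all rows
  have hmom : ∑ x : κ → α → S, Real.exp (-lam * A x)
      ≤ Fintype.card (κ → α → S) * Real.exp (2 * B ^ 2) := by
    have h1 : ∀ x : κ → α → S, ∑ psi : α → S, Real.exp (-lam * A (Function.update x g psi))
        ≤ Fintype.card (α → S) * Real.exp (2 * B ^ 2) := by
      intro x
      let c : α → S → ℝ := fun v s =>
        ∑ y ∈ Y.filter (fun y => y g = v), w (Function.update (fun u => x u (y u)) g s)
      let nn : α → ℝ := fun v => ((Y.filter fun y => y g = v).card : ℝ)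
      have hA : ∀ psi : α → S, A (Function.update x g psi) = ∑ v, c v (psi v) := by
        intro psi
        show ∑ y ∈ Y, w (fun v => (Function.update x g psi) v (y v)) = _
        rw [← Finset.sum_fiberwise Y (fun y => y g)]
        refine Finset.sum_congr rfl fun v _ => Finset.sum_congr rfl fun y hy => ?_
        have hyv : y g = v := (Finset.mem_filter.1 hy).2
        congr 1
        funext u
        by_cases hu : u = g
        · subst hu; simp [hyv]
        · simp [hu]
      have hc : ∀ v s, |c v s| ≤ B * nn v := by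
        intro v s
        calc |c v s| ≤ ∑ y ∈ Y.filter (fun y => y g = v), B :=
              (Finset.abs_sum_le_sum_abs _ _).trans (Finset.sum_le_sum fun y _ => hB _)
          _ = B * nn v := by rw [Finset.sum_const, nsmul_eq_mul, mul_comm]
      have hc0 : ∀ v, ∑ s, c v s = 0 := by
        intro v
        rw [Finset.sum_comm]
        exact Finset.sum_eq_zero fun y _ => hw _
      calc ∑ psi : α → S, Real.exp (-lam * A (Function.update x g psi))
          = ∑ psi : α → S, ∏ v, Real.exp (-lam * c v (psi v)) := by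
            refine Finset.sum_congr rfl fun psi _ => ?_
            rw [hA, Finset.mul_sum, Real.exp_sum]
        _ = ∏ v, ∑ s, Real.exp (-lam * c v s) := by
            rw [Finset.prod_univ_sum]
            simp [Fintype.piFinset_univ]
        _ ≤ ∏ v : α, ((Fintype.card S : ℝ) * Real.exp (2 * (-lam) ^ 2 * (B * nn v) ^ 2)) :=
            Finset.prod_le_prod (fun v _ => Finset.sum_nonneg fun s _ => (Real.exp_pos _).le)
              (fun v _ => exp_moment (c v) _ _ (hc v) (hc0 v))
        _ = Fintype.card (α → S) * Real.exp (∑ v, 2 * (-lam) ^ 2 * (B * nn v) ^ 2) := by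
            rw [Finset.prod_mul_distrib, Real.exp_sum]
            simp
        _ ≤ Fintype.card (α → S) * Real.exp (2 * B ^ 2) := by
            refine mul_le_mul_of_nonneg_left (Real.exp_le_exp.2 ?_) (Nat.cast_nonneg _)
            have hn0 : ∀ v, 0 ≤ nn v := fun v => Nat.cast_nonneg _
            have hsum : ∑ v, nn v = Y.card := by
              rw [Finset.card_eq_sum_card_fiberwise (f := fun y => y g) (t := Finset.univ)
                (fun y _ => Finset.mem_univ _)]
              push_cast
              rfl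
            have hsq : (∑ v, nn v ^ 2) * L ≤ (Y.card : ℝ) ^ 2 := by
              calc (∑ v, nn v ^ 2) * L = ∑ v, nn v * (nn v * L) := by
                    rw [Finset.sum_mul]; exact Finset.sum_congr rfl fun v _ => by ring
                _ ≤ ∑ v, nn v * Y.card :=
                    Finset.sum_le_sum fun v _ => mul_le_mul_of_nonneg_left (hY v) (hn0 v)
                _ = (Y.card : ℝ) ^ 2 := by rw [← Finset.sum_mul, hsum]; ring
            calc ∑ v, 2 * (-lam) ^ 2 * (B * nn v) ^ 2
                = 2 * B ^ 2 * (lam ^ 2 * ∑ v, nn v ^ 2) := by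
                  rw [Finset.mul_sum, Finset.mul_sum]
                  exact Finset.sum_congr rfl fun v _ => by ring
              _ = 2 * B ^ 2 * (((∑ v, nn v ^ 2) * L) / (Y.card : ℝ) ^ 2) := by
                  rw [hlam, div_pow, Real.sq_sqrt hL.le]; ring
              _ ≤ 2 * B ^ 2 * 1 := by
                  refine mul_le_mul_of_nonneg_left ?_ (by positivity)
                  rw [div_le_one (by positivity)]
                  exact hsq
              _ = 2 * B ^ 2 := by ring
    have h2 := resample (fun x : κ → α → S => Real.exp (-lam * A x)) g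
    have h3 : (Fintype.card (α → S) : ℝ) * ∑ x : κ → α → S, Real.exp (-lam * A x)
        ≤ Fintype.card (α → S) * (Fintype.card (κ → α → S) * Real.exp (2 * B ^ 2)) := by
      rw [← h2]
      refine (Finset.sum_le_sum fun x _ => h1 x).trans ?_
      rw [Finset.sum_const, nsmul_eq_mul, Finset.card_univ]
      exact le_of_eq (by ring)
    have h4 : (0 : ℝ) < Fintype.card (α → S) := by exact_mod_cast Fintype.card_pos
    exact le_of_mul_le_mul_left h3 h4
  -- Jensen over `X`
  set SA : ℝ := ∑ x ∈ X, A x with hSA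
  set mm : ℝ := -lam * SA / X.card with hmm
  have hJ : (X.card : ℝ) * Real.exp mm ≤ ∑ x ∈ X, Real.exp (-lam * A x) := by
    calc (X.card : ℝ) * Real.exp mm = ∑ x ∈ X, Real.exp mm * ((-lam * A x - mm) + 1) := by
          rw [← Finset.mul_sum, Finset.sum_add_distrib, Finset.sum_sub_distrib, ← Finset.mul_sum]
          simp only [Finset.sum_const, nsmul_eq_mul, mul_one]
          rw [← hSA, hmm]
          field_simp
          ring
      _ ≤ ∑ x ∈ X, Real.exp mm * Real.exp (-lam * A x - mm) :=
          Finset.sum_le_sum fun x _ =>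
            mul_le_mul_of_nonneg_left (Real.add_one_le_exp _) (Real.exp_pos _).le
      _ = ∑ x ∈ X, Real.exp (-lam * A x) := by
          refine Finset.sum_congr rfl fun x _ => ?_
          rw [← Real.exp_add]; congr 1; ring
  have hX : ∑ x ∈ X, Real.exp (-lam * A x) ≤ ∑ x : κ → α → S, Real.exp (-lam * A x) :=
    Finset.sum_le_sum_of_subset_of_nonneg (Finset.subset_univ _) fun x _ _ => (Real.exp_pos _).le
  have hfin : (X.card : ℝ) * Real.exp mm ≤ X.card * Real.exp (T + 2 * B ^ 2) := by
    calc (X.card : ℝ) * Real.exp mm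
        ≤ Fintype.card (κ → α → S) * Real.exp (2 * B ^ 2) := hJ.trans (hX.trans hmom)
      _ ≤ (Real.exp T * X.card) * Real.exp (2 * B ^ 2) :=
          mul_le_mul_of_nonneg_right hT (Real.exp_pos _).le
      _ = X.card * Real.exp (T + 2 * B ^ 2) := by rw [Real.exp_add]; ring
  have hmle : mm ≤ T + 2 * B ^ 2 := Real.exp_le_exp.1 (le_of_mul_le_mul_left hfin hXpos)
  rw [hmm, div_le_iff₀ hXpos] at hmle
  have h9 : -((T + 2 * B ^ 2) * X.card) / lam ≤ SA := by
    rw [div_le_iff₀ hlampos]
    linarith [mul_comm SA lam]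
  refine le_trans (le_of_eq ?_) h9
  rw [hlam]
  field_simp

end Pool.Agent.Lib.MP_678664_lc_h67
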