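import Pool.Agent.Lib.MP_678664_lc_h67.Rect

/-!
From rectangles to nonnegative factorizations of the matrix `V (pattern x y) - ε`.
-/

set_option autoImplicit false

namespace Pool.Agent.Lib.MP_678664_lc_h67

open Finset

/-- A linear function on a box is minimal at a vertex. -/
theorem box_min {ι : Type*} [Fintype ι] (f a : ι → ℝ) (M e : ℝ) (hM : 0 ≤ M)
    (hf0 : ∀ x, 0 ≤ f x) (hfM : ∀ x, f x ≤ M) (h : ∀ A : Finset ι, -e ≤ ∑ x ∈ A, a x) :
    -(M * e) ≤ ∑ x, f x * a x := by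
  classical
  have h1 : M * ∑ x ∈ Finset.univ.filter (fun x => a x < 0), a x ≤ ∑ x, f x * a x := by
    rw [Finset.mul_sum, Finset.sum_filter]
    refine Finset.sum_le_sum fun x _ => ?_
    split_ifs with hx
    · nlinarith [hfM x]
    · exact mul_nonneg (hf0 x) (not_lt.1 hx)
  have h2 := mul_le_mul_of_nonneg_left (h (Finset.univ.filter (fun x => a x < 0))) hM
  linarith

theorem box_min₂ {ι ι' : Type*} [Fintype ι] [Fintype ι'] (f : ι → ℝ) (g : ι' → ℝ)
    (K : ι → ι' → ℝ) (M M' e : ℝ) (hM : 0 ≤ M) (hM' : 0 ≤ M')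
    (hf0 : ∀ x, 0 ≤ f x) (hfM : ∀ x, f x ≤ M) (hg0 : ∀ x, 0 ≤ g x) (hgM : ∀ x, g x ≤ M')
    (h : ∀ (A : Finset ι) (B : Finset ι'), -e ≤ ∑ x ∈ A, ∑ y ∈ B, K x y) :
    -(M * (M' * e)) ≤ ∑ x, ∑ y, f x * g y * K x y := by
  have h1 : ∀ A : Finset ι, -(M' * e) ≤ ∑ x ∈ A, ∑ y, g y * K x y := by
    intro A
    have := box_min g (fun y => ∑ x ∈ A, K x y) M' e hM' hg0 hgM (by
      intro B
      rw [Finset.sum_comm]
      exact h A B)
    refine this.trans (le_of_eq ?_)
    simp only [Finset.mul_sum]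
    exact Finset.sum_comm
  have h2 := box_min f (fun x => ∑ y, g y * K x y) M (M' * e) hM hf0 hfM h1
  refine h2.trans (le_of_eq ?_)
  refine Finset.sum_congr rfl fun x _ => ?_
  rw [Finset.mul_sum]
  exact Finset.sum_congr rfl fun y _ => by ring

variable {κ α S : Type*} [Fintype κ] [DecidableEq κ] [Fintype α] [DecidableEq α]
  [Fintype S] [Nonempty S]

omit [Nonempty S] in
/-- For a fixed column the pattern of a uniform row is uniform. -/
theorem uniform_pattern (H : (κ → S) → ℝ) (y : κ → α) :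
    (Fintype.card (κ → S) : ℝ) * ∑ x : κ → α → S, H (fun v => x v (y v))
      = Fintype.card (κ → α → S) * ∑ z : κ → S, H z := by
  let E : ((κ → α → S) × (κ → S)) ≃ ((κ → α → S) × (κ → S)) :=
    { toFun := fun p => (fun v => Function.update (p.1 v) (y v) (p.2 v), fun v => p.1 v (y v))
      invFun := fun p => (fun v => Function.update (p.1 v) (y v) (p.2 v), fun v => p.1 v (y v))
      left_inv := by rintro ⟨x, a⟩; simp
      right_inv := by rintro ⟨x, a⟩; simp }
  calc (Fintype.card (κ → S) : ℝ) * ∑ x : κ → α → S, H (fun v => x v (y v))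
      = ∑ p : (κ → α → S) × (κ → S), H (fun v => p.1 v (y v)) := by
        rw [Fintype.sum_prod_type, Finset.mul_sum]
        refine Finset.sum_congr rfl fun x _ => ?_
        simp only [Finset.sum_const, nsmul_eq_mul, Finset.card_univ]
    _ = ∑ p : (κ → α → S) × (κ → S), H (fun v => (E p).1 v (y v)) :=
        (E.sum_comp (fun p => H (fun v => p.1 v (y v)))).symm
    _ = ∑ p : (κ → α → S) × (κ → S), H p.2 := by
        refine Finset.sum_congr rfl fun p _ => ?_
        congr 1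
        funext v
        simp [E]
    _ = Fintype.card (κ → α → S) * ∑ z : κ → S, H z := by
        rw [Fintype.sum_prod_type]
        simp only [Finset.sum_const, nsmul_eq_mul, Finset.card_univ]

theorem core (u : ℕ) (hu : u ≤ Fintype.card κ) (h : Finset κ → (κ → S) → ℝ) (B : ℝ)
    (hmean : ∀ J, ∀ g ∈ J, ∀ z, ∑ s, h J (Function.update z g s) = 0)
    (hB : ∀ (F : Finset (Finset κ)) z, |∑ J ∈ F, h J z| ≤ B)
    (hpos : ∀ I : Finset κ, I.card < u → ∀ z, 0 ≤ ∑ J ∈ I.powerset, h J z)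
    [Nonempty α] (T L : ℝ) (hL : 1 ≤ L) (hT0 : 0 ≤ T)
    (t : ℕ) (ht : (1 - 1 / L) ^ t ≤ Real.exp (-T)) (htN : (t : ℝ) ≤ Fintype.card α)
    (V : (κ → S) → ℝ) (Vm ε : ℝ) (hVm : ∀ z, V z ≤ Vm) (hε : 0 ≤ ε)
    (hWV : ∑ z, V z * ∑ J, h J z = 0) (hW1 : ∑ z, ∑ J, h J z = Fintype.card (κ → S))
    (R : ℕ) (a : Fin R → (κ → α → S) → ℝ) (b : Fin R → (κ → α) → ℝ)
    (ha : ∀ i x, 0 ≤ a i x) (hb : ∀ i y, 0 ≤ b i y)
    (hfac : ∀ x y, ∑ i, a i x * b i y = V (fun v => x v (y v)) - ε) :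
    ε - Fintype.card κ * ((T + 2 * B ^ 2) / √L) * Vm
      ≤ R * (Vm * (B * (t / Fintype.card α) ^ u + (u + 1) * (B * Real.exp (-T)))) := by
  set δ : ℝ := Fintype.card κ * ((T + 2 * B ^ 2) / √L) with hδ
  have hδ0 : 0 ≤ δ := by positivity
  have hB0 : 0 ≤ B := (abs_nonneg _).trans (hB ∅ (fun _ => Classical.arbitrary S))
  set E : ℝ := B * (t / Fintype.card α) ^ u + (u + 1) * (B * Real.exp (-T)) with hE
  have hE0 : 0 ≤ E := by positivity
  set Q : ℝ := (Fintype.card (κ → α → S) : ℝ) with hQ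
  set C : ℝ := (Fintype.card (κ → α) : ℝ) with hC
  set Z : ℝ := (Fintype.card (κ → S) : ℝ) with hZ
  have hQ0 : 0 < Q := by rw [hQ]; exact_mod_cast Fintype.card_pos
  have hC0 : 0 < C := by rw [hC]; exact_mod_cast Fintype.card_pos
  have hZ0 : 0 < Z := by rw [hZ]; exact_mod_cast Fintype.card_pos
  -- each product is bounded below
  have h1 : ∀ i, -(Vm * (E * Q * C))
      ≤ ∑ x : κ → α → S, ∑ y : κ → α, a i x * b i y * ((∑ J, h J (fun v => x v (y v))) + δ) := by
    intro i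
    obtain ⟨x0, hx0⟩ := Finite.exists_max (a i)
    obtain ⟨y0, hy0⟩ := Finite.exists_max (b i)
    have h2 := box_min₂ (a i) (b i) (fun x y => (∑ J, h J (fun v => x v (y v))) + δ)
      (a i x0) (b i y0) (E * Q * C) (ha i x0) (hb i y0) (ha i) hx0 (hb i) hy0
      (fun A D => rect u hu h B hmean hB hpos T L hL hT0 t ht htN A D)
    refine le_trans (neg_le_neg ?_) h2
    rw [← mul_assoc]
    refine mul_le_mul_of_nonneg_right ?_ (by positivity)
    have h3 : a i x0 * b i y0 ≤ ∑ j, a j x0 * b j y0 :=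
      Finset.single_le_sum (f := fun j => a j x0 * b j y0)
        (fun j _ => mul_nonneg (ha j x0) (hb j y0)) (Finset.mem_univ i)
    rw [hfac] at h3
    linarith [hVm (fun v => x0 v (y0 v))]
  have h2 : -(R * (Vm * (E * Q * C))) ≤ ∑ x : κ → α → S, ∑ y : κ → α,
      (V (fun v => x v (y v)) - ε) * ((∑ J, h J (fun v => x v (y v))) + δ) := by
    calc -(R * (Vm * (E * Q * C))) = ∑ i : Fin R, -(Vm * (E * Q * C)) := by simp
      _ ≤ ∑ i : Fin R, ∑ x : κ → α → S, ∑ y : κ → α,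
            a i x * b i y * ((∑ J, h J (fun v => x v (y v))) + δ) :=
          Finset.sum_le_sum fun i _ => h1 i
      _ = ∑ x : κ → α → S, ∑ y : κ → α,
            (V (fun v => x v (y v)) - ε) * ((∑ J, h J (fun v => x v (y v))) + δ) := by
          rw [Finset.sum_comm]
          refine Finset.sum_congr rfl fun x _ => ?_
          rw [Finset.sum_comm]
          refine Finset.sum_congr rfl fun y _ => ?_
          rw [← Finset.sum_mul, hfac]
  -- uniform pattern
  have h3 : Z * ∑ x : κ → α → S, ∑ y : κ → α,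
      (V (fun v => x v (y v)) - ε) * ((∑ J, h J (fun v => x v (y v))) + δ)
      = Q * C * ∑ z : κ → S, (V z - ε) * ((∑ J, h J z) + δ) := by
    rw [Finset.sum_comm, Finset.mul_sum]
    have : ∀ y : κ → α, Z * ∑ x : κ → α → S,
        (V (fun v => x v (y v)) - ε) * ((∑ J, h J (fun v => x v (y v))) + δ)
        = Q * ∑ z : κ → S, (V z - ε) * ((∑ J, h J z) + δ) := fun y =>
      uniform_pattern (fun z => (V z - ε) * ((∑ J, h J z) + δ)) y
    rw [Finset.sum_congr rfl (fun y _ => this y), Finset.sum_const, nsmul_eq_mul,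
      Finset.card_univ]
    ring
  have h4 : ∑ z : κ → S, (V z - ε) * ((∑ J, h J z) + δ) ≤ Z * (-ε + δ * Vm) := by
    have h5 : ∑ z : κ → S, (V z - ε) * ((∑ J, h J z) + δ)
        = (∑ z, V z * ∑ J, h J z) - ε * (∑ z, ∑ J, h J z) + δ * ∑ z, (V z - ε) := by
      rw [Finset.mul_sum, Finset.mul_sum, ← Finset.sum_sub_distrib, ← Finset.sum_add_distrib]
      exact Finset.sum_congr rfl fun z _ => by ring
    have h6 : ∑ z : κ → S, (V z - ε) ≤ Z * Vm := by
      calc ∑ z : κ → S, (V z - ε) ≤ ∑ z : κ → S, Vm :=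
            Finset.sum_le_sum fun z _ => by linarith [hVm z]
        _ = Z * Vm := by rw [Finset.sum_const, nsmul_eq_mul, Finset.card_univ]
    rw [h5, hWV, hW1]
    have h7 := mul_le_mul_of_nonneg_left h6 hδ0
    linarith [mul_comm Z ε, mul_assoc δ Z Vm, mul_comm δ Z, mul_assoc Z δ Vm]
  have h8 : -(Z * (R * (Vm * (E * Q * C)))) ≤ Q * C * (Z * (-ε + δ * Vm)) := by
    have h9 := mul_le_mul_of_nonneg_left h2 hZ0.le
    rw [h3] at h9
    have h10 := mul_le_mul_of_nonneg_left h4 (mul_pos hQ0 hC0).le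
    linarith
  have hQCZ : 0 < Q * C * Z := by positivity
  have h11 : (Q * C * Z) * (ε - δ * Vm) ≤ (Q * C * Z) * (R * (Vm * E)) := by linarith
  exact le_of_mul_le_mul_left h11 hQCZ

end Pool.Agent.Lib.MP_678664_lc_h67
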