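import Mathlib

/-!
Linear programming formulations of the gap clique problem: tell graphs with a `k`-clique from
graphs without a `u`-clique.
-/

set_option autoImplicit false

namespace Pool.Agent.Lib.MP_678664_lc_h67

open Classical in
/-- The number of edges of the graph `G` with both ends in the vertex set `S`
(counted as pairs `(a, b)` with `a < b`). -/
noncomputable def edgesIn {n : ℕ} (G : SimpleGraph (Fin n)) (S : Finset (Fin n)) : ℕ :=
  ((S ×ˢ S).filter fun p => p.1 < p.2 ∧ G.Adj p.1 p.2).card

/-- A linear programming formulation with `r` inequalities of the problem to tell graphs on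
`Fin n` with a `k`-clique from graphs on `Fin n` without a `u`-clique, with gap `ε`.

The feasible region is the set of the `y : Fin d → ℝ` with `a i ⬝ᵥ y ≤ b i` for the `r`
inequalities `i` and `c j ⬝ᵥ y = e j` for the `m` equations `j`; it does not depend on the input
graph, and the numbers `d` of variables and `m` of equations are not restricted.  Each set `S` of
`k` vertices has a feasible point `point S`.  The input graph `G` enters only through the affine
objective function `y ↦ obj G ⬝ᵥ y + obj0 G`, whose value at `point S` is the number of edges
of `G` inside `S`.  If `G` has no `u`-clique, the objective function is at most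
`k.choose 2 - ε` on the whole feasible region (it is at least `k.choose 2` somewhere
if `G` has a `k`-clique). -/
structure LPFormulation (n k u : ℕ) (ε : ℝ) (r : ℕ) where
  /-- number of variables -/
  d : ℕ
  /-- number of equations -/
  m : ℕ
  /-- left sides of the inequalities -/
  a : Fin r → Fin d → ℝ
  /-- right sides of the inequalities -/
  b : Fin r → ℝ
  /-- left sides of the equations -/
  c : Fin m → Fin d → ℝ
  /-- right sides of the equations -/
  e : Fin m → ℝ
  /-- the point of a vertex set -/
  point : Finset (Fin n) → Fin d → ℝ
  /-- linear part of the objective function of a graph -/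
  obj : SimpleGraph (Fin n) → Fin d → ℝ
  /-- constant term of the objective function of a graph -/
  obj0 : SimpleGraph (Fin n) → ℝ
  /-- the points of the `k`-sets satisfy the inequalities -/
  point_le : ∀ S, S.card = k → ∀ i, a i ⬝ᵥ point S ≤ b i
  /-- the points of the `k`-sets satisfy the equations -/
  point_eq : ∀ S, S.card = k → ∀ j, c j ⬝ᵥ point S = e j
  /-- the objective function counts the edges inside a `k`-set -/
  obj_point : ∀ G S, S.card = k → obj G ⬝ᵥ point S + obj0 G = edgesIn G S
  /-- the value is at most `k.choose 2 - ε` if there is no `u`-clique -/
  sound : ∀ G, G.CliqueFree u → ∀ y : Fin d → ℝ, (∀ i, a i ⬝ᵥ y ≤ b i) →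
    (∀ j, c j ⬝ᵥ y = e j) → obj G ⬝ᵥ y + obj0 G ≤ k.choose 2 - ε

end Pool.Agent.Lib.MP_678664_lc_h67
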