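import Pool.Agent.Lib.MP_678664_lc_h67.Mobius

/-!
The locally consistent design: the values are polynomials of degree less than `m = u - 2`
over a prime field, and the values `P` at `v` and `Q` at `w` are compatible when
`P (a w) - Q (a v) = (a v * a w) ^ m * (a v - a w)`.
-/

set_option autoImplicit false

namespace Pool.Agent.Lib.MP_678664_lc_h67

open Finset Polynomial

section
variable {k m p : ℕ} [hp : Fact p.Prime]

/-- Value of the polynomial with coefficient vector `P`. -/
def ev (P : Fin m → ZMod p) (x : ZMod p) : ZMod p := ∑ j, P j * x ^ (j : ℕ)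

/-- Compatibility. -/
def okD (a : Fin k → ZMod p) (v w : Fin k) (P Q : Fin m → ZMod p) : Prop :=
  ev P (a w) - ev Q (a v) = (a v * a w) ^ m * (a v - a w)

theorem okD_symm (a : Fin k → ZMod p) (v w : Fin k) (P Q : Fin m → ZMod p)
    (h : okD a v w P Q) : okD a w v Q P := by
  unfold okD at *
  have : ev Q (a v) - ev P (a w) = -((a v * a w) ^ m * (a v - a w)) := by rw [← h]; ring
  rw [this, mul_comm (a w) (a v)]; ring

/-- Interpolation. -/
theorem exists_ev (hm : 0 < m) (a : Fin k → ZMod p) (ha : Function.Injective a)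
    (I : Finset (Fin k)) (hI : I.card ≤ m) (b : Fin k → ZMod p) :
    ∃ P : Fin m → ZMod p, ∀ w ∈ I, ev P (a w) = b w := by
  set q := Lagrange.interpolate I a b with hq
  have hdeg : q.degree < I.card := Lagrange.degree_interpolate_lt b ha.injOn
  have hnat : q.natDegree < m := by
    rcases eq_or_ne q 0 with h0 | h0
    · rw [h0]; simpa using hm
    · rw [Polynomial.degree_eq_natDegree h0] at hdeg
      have : q.natDegree < I.card := by exact_mod_cast hdeg
      omega
  refine ⟨fun j => q.coeff j, fun w hw => ?_⟩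
  have h1 := Lagrange.eval_interpolate_at_node b (ha.injOn (s := (I : Set (Fin k)))) hw
  rw [← hq, Polynomial.eval_eq_sum_range' hnat, Finset.sum_range] at h1
  exact h1

theorem card_ext (hm : 0 < m) (a : Fin k → ZMod p) (ha : Function.Injective a)
    (I : Finset (Fin k)) (hI : I.card ≤ m) (b : Fin k → ZMod p) :
    Nat.card {P : Fin m → ZMod p // ∀ w ∈ I, ev P (a w) = b w} * p ^ I.card
      = Fintype.card (Fin m → ZMod p) := by
  classical
  let f : (Fin m → ZMod p) →+ (I → ZMod p) :=
    { toFun := fun P w => ev P (a w)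
      map_zero' := by funext w; simp [ev]
      map_add' := by intro P Q; funext w; simp [ev, add_mul, Finset.sum_add_distrib] }
  have hf : ∀ c : I → ZMod p, c ∈ Set.range f := by
    intro c
    obtain ⟨P, hP⟩ := exists_ev hm a ha I hI (fun w => if h : w ∈ I then c ⟨w, h⟩ else 0)
    refine ⟨P, ?_⟩
    funext w
    show ev P (a w) = c w
    rw [hP w w.2, dif_pos w.2]
  have hfib : ∀ c : I → ZMod p, (Finset.univ.filter fun P => f P = c).card
      = (Finset.univ.filter fun P => f P = (fun w : I => b w)).card := fun c =>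
    AddMonoidHom.card_fiber_eq_of_mem_range f (hf c) (hf _)
  have h1 : Fintype.card (Fin m → ZMod p)
      = ∑ c : I → ZMod p, (Finset.univ.filter fun P => f P = c).card := by
    rw [← Finset.card_univ]
    exact Finset.card_eq_sum_card_fiberwise (fun P _ => Finset.mem_coe.2 (Finset.mem_univ _))
  rw [h1, Finset.sum_congr rfl (fun c _ => hfib c), Finset.sum_const, Finset.card_univ,
    smul_eq_mul, Fintype.card_fun, ZMod.card, Fintype.card_coe, mul_comm]
  congr 1
  rw [Nat.card_eq_fintype_card, Fintype.card_subtype]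
  congr 1
  ext P
  simp only [Finset.mem_filter, Finset.mem_univ, true_and]
  constructor
  · intro h; funext w; exact h w w.2
  · intro h w hw; exact congrFun h ⟨w, hw⟩

theorem power_sum (a : Fin k → ZMod p) (ha : Function.Injective a) (U : Finset (Fin k))
    (j : ℕ) (hj : j < U.card) :
    ∑ w ∈ U, (∏ x ∈ U.erase w, (a w - a x))⁻¹ * a w ^ j = if j = U.card - 1 then 1 else 0 := by
  have h := Lagrange.coeff_eq_sum (P := (X : (ZMod p)[X]) ^ j) (ha.injOn (s := (U : Set (Fin k))))
    (by rw [Polynomial.degree_X_pow]; exact_mod_cast hj)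
  rw [Polynomial.coeff_X_pow] at h
  have h2 : ∑ w ∈ U, (∏ x ∈ U.erase w, (a w - a x))⁻¹ * a w ^ j
      = ∑ i ∈ U, (Polynomial.eval (a i) ((X : (ZMod p)[X]) ^ j)) / ∏ j ∈ U.erase i, (a i - a j) := by
    refine Finset.sum_congr rfl fun w _ => ?_
    rw [Polynomial.eval_pow, Polynomial.eval_X, div_eq_mul_inv, mul_comm]
  rw [h2, ← h]
  congr 1
  exact propext eq_comm

theorem not_cons (hp2 : 2 < p) (a : Fin k → ZMod p) (ha : Function.Injective a)
    (U : Finset (Fin k)) (hU : U.card = m + 2) (z : Fin k → Fin m → ZMod p) :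
    ¬ Cons (okD a) U z := by
  intro hc
  set μ : Fin k → ZMod p := fun w => (∏ x ∈ U.erase w, (a w - a x))⁻¹ with hμ
  have hS : ∀ j ≤ m, ∑ w ∈ U, μ w * a w ^ j = 0 := by
    intro j hj
    have := power_sum a ha U j (by omega)
    rw [if_neg (by omega)] at this
    exact this
  have hS1 : ∑ w ∈ U, μ w * a w ^ (m + 1) = 1 := by
    have := power_sum a ha U (m + 1) (by omega)
    rw [if_pos (by omega)] at this
    exact this
  -- first sum
  have h1 : ∀ v, ∑ w ∈ U, μ w * (a v - a w) * ev (z v) (a w) = 0 := by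
    intro v
    have h2 : ∑ w ∈ U, μ w * (a v - a w) * ev (z v) (a w)
        = ∑ j : Fin m, z v j * (a v * ∑ w ∈ U, μ w * a w ^ (j : ℕ)
            - ∑ w ∈ U, μ w * a w ^ ((j : ℕ) + 1)) := by
      have h3 : ∀ w, μ w * (a v - a w) * ev (z v) (a w)
          = ∑ j : Fin m, z v j * (a v * (μ w * a w ^ (j : ℕ)) - μ w * a w ^ ((j : ℕ) + 1)) := by
        intro w
        unfold ev
        rw [Finset.mul_sum]
        refine Finset.sum_congr rfl fun j _ => ?_
        ring
      rw [Finset.sum_congr rfl (fun w _ => h3 w), Finset.sum_comm]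
      refine Finset.sum_congr rfl fun j _ => ?_
      rw [← Finset.mul_sum, Finset.sum_sub_distrib, ← Finset.mul_sum]
    rw [h2]
    refine Finset.sum_eq_zero fun j _ => ?_
    rw [hS j (by omega), hS (j + 1) (by omega)]
    ring
  have h4 : ∑ v ∈ U, ∑ w ∈ U, μ v * μ w * (a v - a w) * ev (z v) (a w) = 0 := by
    refine Finset.sum_eq_zero fun v _ => ?_
    rw [show ∑ w ∈ U, μ v * μ w * (a v - a w) * ev (z v) (a w)
      = μ v * ∑ w ∈ U, μ w * (a v - a w) * ev (z v) (a w) by
        rw [Finset.mul_sum]; exact Finset.sum_congr rfl fun w _ => by ring, h1, mul_zero]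
  have h5 : ∑ v ∈ U, ∑ w ∈ U, μ v * μ w * (a v - a w) * ev (z w) (a v) = 0 := by
    rw [Finset.sum_comm, ← neg_zero, ← h4, ← Finset.sum_neg_distrib]
    refine Finset.sum_congr rfl fun v _ => ?_
    rw [← Finset.sum_neg_distrib]
    exact Finset.sum_congr rfl fun w _ => by ring
  have h6 : ∑ v ∈ U, ∑ w ∈ U, μ v * μ w * (a v - a w) * ((a v * a w) ^ m * (a v - a w)) = 0 := by
    have h7 : ∑ v ∈ U, ∑ w ∈ U, μ v * μ w * (a v - a w) * ((a v * a w) ^ m * (a v - a w))
        = ∑ v ∈ U, ∑ w ∈ U, (μ v * μ w * (a v - a w) * ev (z v) (a w)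
          - μ v * μ w * (a v - a w) * ev (z w) (a v)) := by
      refine Finset.sum_congr rfl fun v hv => Finset.sum_congr rfl fun w hw => ?_
      by_cases hvw : v = w
      · subst hvw; simp
      · have := hc v hv w hw hvw
        unfold okD at this
        rw [← this]; ring
    rw [h7]
    simp only [Finset.sum_sub_distrib]
    rw [h4, h5, sub_zero]
  have h8 : ∑ v ∈ U, ∑ w ∈ U, μ v * μ w * (a v - a w) * ((a v * a w) ^ m * (a v - a w))
      = (∑ v ∈ U, μ v * a v ^ (m + 2)) * (∑ w ∈ U, μ w * a w ^ m)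
        - 2 * ((∑ v ∈ U, μ v * a v ^ (m + 1)) * (∑ w ∈ U, μ w * a w ^ (m + 1)))
        + (∑ v ∈ U, μ v * a v ^ m) * (∑ w ∈ U, μ w * a w ^ (m + 2)) := by
    rw [Finset.sum_mul_sum, Finset.sum_mul_sum, Finset.sum_mul_sum, Finset.mul_sum,
      ← Finset.sum_sub_distrib, ← Finset.sum_add_distrib]
    refine Finset.sum_congr rfl fun v _ => ?_
    rw [Finset.mul_sum, ← Finset.sum_sub_distrib, ← Finset.sum_add_distrib]
    refine Finset.sum_congr rfl fun w _ => ?_
    ring
  rw [h8, hS m le_rfl, hS1] at h6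
  have h9 : (2 : ZMod p) = 0 := by
    have : (-(2 : ZMod p)) = 0 := by rw [← h6]; ring
    exact neg_eq_zero.1 this
  have h10 : ((2 : ℕ) : ZMod p) = 0 := by exact_mod_cast h9
  rw [ZMod.natCast_eq_zero_iff] at h10
  exact absurd (Nat.le_of_dvd (by norm_num) h10) (by omega)

end

/-- Existence of the design. -/
theorem exists_design (k u : ℕ) (hu : 3 ≤ u) :
    ∃ (S : Type) (_ : Fintype S) (_ : Nonempty S) (ok : Fin k → Fin k → S → S → Prop) (q : ℝ),
      0 ≤ q ∧ (∀ v w s t, ok v w s t → ok w v t s) ∧ Ext ok q u ∧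
      ∀ (z : Fin k → S) (U : Finset (Fin k)), U.card = u → ¬ Cons ok U z := by
  obtain ⟨m, rfl⟩ : ∃ m, u = m + 2 := ⟨u - 2, by omega⟩
  obtain ⟨p, hpk, hp⟩ := Nat.exists_infinite_primes (k + 3)
  have : Fact p.Prime := ⟨hp⟩
  let a : Fin k → ZMod p := fun v => ((v : ℕ) : ZMod p)
  have ha : Function.Injective a := by
    intro v w hvw
    have h1 : ((v : ℕ) : ZMod p) = ((w : ℕ) : ZMod p) := hvw
    rw [ZMod.natCast_eq_natCast_iff] at h1
    have h2 := Nat.ModEq.eq_of_lt_of_lt h1 (by omega) (by omega)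
    exact Fin.ext h2
  refine ⟨Fin m → ZMod p, inferInstance, inferInstance, okD a, (p : ℝ), Nat.cast_nonneg _,
    okD_symm a, ?_, ?_⟩
  · intro I g hg hI z
    have h := card_ext (m := m) (by omega) a ha I (by omega)
      (fun w => ev (z w) (a g) + (a g * a w) ^ m * (a g - a w))
    rw [← h]
    push_cast
    congr 2
    refine Nat.card_congr (Equiv.subtypeEquivRight fun P => ?_)
    refine forall₂_congr fun w _ => ?_
    unfold okD
    constructor
    · intro h; rw [← h]; ring
    · intro h; rw [h]; ring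
  · intro z U hU
    exact not_cons (by omega) a ha U hU z

end Pool.Agent.Lib.MP_678664_lc_h67
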