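import Mathlib

/-!
Farkas' lemma (Bartl's elementary induction) and its affine form for a polyhedron given by
inequalities and equations.
-/

set_option autoImplicit false

namespace Pool.Agent.Lib.MP_678664_lc_h67

open Finset

theorem farkas {V : Type*} [AddCommGroup V] [Module ℝ V] : ∀ (m : ℕ)
    (A : Fin m → V →ₗ[ℝ] ℝ) (c : V →ₗ[ℝ] ℝ),
    (∀ x, (∀ i, A i x ≤ 0) → c x ≤ 0) →
    ∃ l : Fin m → ℝ, (∀ i, 0 ≤ l i) ∧ ∀ x, c x = ∑ i, l i * A i x := by
  intro m
  induction m with
  | zero =>
    intro A c h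
    refine ⟨fun _ => 0, fun _ => le_rfl, fun x => ?_⟩
    have h1 := h x (fun i => i.elim0)
    have h2 := h (-x) (fun i => i.elim0)
    simp only [map_neg] at h2
    simp
    linarith
  | succ m ih =>
    intro A c h
    by_cases hc : ∀ x, (∀ i : Fin m, A i.succ x ≤ 0) → c x ≤ 0
    · obtain ⟨l, hl, hx⟩ := ih (fun i => A i.succ) c hc
      refine ⟨Fin.cons 0 l, ?_, fun x => ?_⟩
      · intro i
        refine Fin.cases ?_ ?_ i
        · simp
        · intro j; simpa using hl j
      · rw [Fin.sum_univ_succ]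
        simp [hx x]
    · push Not at hc
      obtain ⟨x0, hx0, hcx0⟩ := hc
      have hA0 : 0 < A 0 x0 := by
        by_contra hneg
        push Not at hneg
        have := h x0 (fun i => by
          refine Fin.cases hneg ?_ i
          intro j; exact hx0 j)
        linarith
      set z : V := (A 0 x0)⁻¹ • x0 with hz
      have hz0 : A 0 z = 1 := by
        rw [hz, map_smul, smul_eq_mul, inv_mul_cancel₀ hA0.ne']
      have hzi : ∀ i : Fin m, A i.succ z ≤ 0 := by
        intro i
        rw [hz, map_smul, smul_eq_mul]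
        exact mul_nonpos_of_nonneg_of_nonpos (inv_nonneg.2 hA0.le) (hx0 i)
      have hzc : 0 < c z := by
        rw [hz, map_smul, smul_eq_mul]
        exact mul_pos (inv_pos.2 hA0) hcx0
      obtain ⟨l, hl, hx⟩ := ih (fun i => A i.succ - (A i.succ z) • A 0) (c - (c z) • A 0) (by
        intro x hxx
        have key : c (x - (A 0 x) • z) ≤ 0 := by
          apply h
          intro i
          refine Fin.cases ?_ ?_ i
          · rw [map_sub, map_smul, hz0, smul_eq_mul, mul_one, sub_self]
          · intro j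
            have := hxx j
            simp only [LinearMap.sub_apply, LinearMap.smul_apply, smul_eq_mul] at this
            rw [map_sub, map_smul, smul_eq_mul]
            linarith [mul_comm (A 0 x) (A j.succ z)]
        rw [map_sub, map_smul, smul_eq_mul] at key
        simp only [LinearMap.sub_apply, LinearMap.smul_apply, smul_eq_mul]
        linarith [mul_comm (A 0 x) (c z)])
      refine ⟨Fin.cons (c z - ∑ i, l i * A i.succ z) l, ?_, fun x => ?_⟩
      · intro i
        refine Fin.cases ?_ ?_ i
        · have : ∑ i, l i * A i.succ z ≤ 0 :=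
            Finset.sum_nonpos fun i _ => mul_nonpos_of_nonneg_of_nonpos (hl i) (hzi i)
          simp only [Fin.cons_zero]
          linarith
        · intro j; simpa using hl j
      · rw [Fin.sum_univ_succ]
        have := hx x
        simp only [LinearMap.sub_apply, LinearMap.smul_apply, smul_eq_mul, mul_sub] at this
        rw [Finset.sum_sub_distrib] at this
        simp only [Fin.cons_zero, Fin.cons_succ, sub_mul, Finset.sum_mul]
        have h3 : ∑ i : Fin m, l i * (A i.succ z * A 0 x) = ∑ i : Fin m, l i * A i.succ z * A 0 x :=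
          Finset.sum_congr rfl fun i _ => by ring
        rw [h3] at this
        linarith

/-- Affine Farkas lemma: an affine function bounded by `β` on a nonempty polyhedron. -/
theorem farkas_affine {r m d : ℕ} (a : Fin r → Fin d → ℝ) (b : Fin r → ℝ)
    (c : Fin m → Fin d → ℝ) (e : Fin m → ℝ) (o : Fin d → ℝ) (o0 β : ℝ)
    (y0 : Fin d → ℝ) (hy0 : ∀ i, a i ⬝ᵥ y0 ≤ b i) (hy0' : ∀ j, c j ⬝ᵥ y0 = e j)
    (h : ∀ y : Fin d → ℝ, (∀ i, a i ⬝ᵥ y ≤ b i) → (∀ j, c j ⬝ᵥ y = e j) → o ⬝ᵥ y + o0 ≤ β) :
    ∃ l : Fin (r + 1) → ℝ, (∀ i, 0 ≤ l i) ∧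
      ∀ y : Fin d → ℝ, (∀ j, c j ⬝ᵥ y = e j) →
        β - (o ⬝ᵥ y + o0) = l 0 + ∑ i : Fin r, l i.succ * (b i - a i ⬝ᵥ y) := by
  -- functionals on the space of pairs `(y, s)`
  let F : (Fin d → ℝ) → ℝ → ((Fin d → ℝ) × ℝ →ₗ[ℝ] ℝ) := fun v t =>
    { toFun := fun p => v ⬝ᵥ p.1 + t * p.2
      map_add' := by intro p q; simp [dotProduct_add]; ring
      map_smul' := by intro q p; simp [dotProduct_smul]; ring }
  have hF : ∀ v t p, F v t p = v ⬝ᵥ p.1 + t * p.2 := fun v t p => rfl
  let U : Submodule ℝ ((Fin d → ℝ) × ℝ) := ⨅ j : Fin m, LinearMap.ker (F (c j) (-(e j)))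
  have hU : ∀ p, p ∈ U ↔ ∀ j, c j ⬝ᵥ p.1 = e j * p.2 := by
    intro p
    simp only [U, Submodule.mem_iInf, LinearMap.mem_ker, hF]
    constructor
    · intro hp j; have := hp j; linarith
    · intro hp j; have := hp j; linarith
  let A : Fin (r + 1) → U →ₗ[ℝ] ℝ :=
    Fin.cons ((F 0 (-1)).comp U.subtype) (fun i => (F (a i) (-(b i))).comp U.subtype)
  have hA0 : ∀ p : U, A 0 p = - p.1.2 := by
    intro p; simp [A, hF]
  have hAs : ∀ (i : Fin r) (p : U), A i.succ p = a i ⬝ᵥ p.1.1 - b i * p.1.2 := by
    intro i p; simp [A, hF]; ring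
  obtain ⟨l, hl, hx⟩ := farkas (r + 1) A ((F o (o0 - β)).comp U.subtype) (by
    rintro ⟨⟨y, s⟩, hp⟩ hi
    have hp' := (hU _).1 hp
    have hs : 0 ≤ s := by
      have := hi 0
      rw [hA0] at this
      simpa using this
    have hyi : ∀ i, a i ⬝ᵥ y ≤ b i * s := by
      intro i
      have := hi i.succ
      rw [hAs] at this
      simpa using this
    simp only [LinearMap.comp_apply, Submodule.subtype_apply, hF]
    simp only at hp'
    rcases hs.eq_or_lt with hs0 | hs0
    · -- recession direction
      subst hs0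
      simp only [mul_zero] at hyi hp' ⊢
      rw [add_zero]
      by_contra hneg
      push Not at hneg
      set t : ℝ := (β - (o ⬝ᵥ y0 + o0) + 1) / (o ⬝ᵥ y) with ht
      have hb0 := h y0 hy0 hy0'
      have htpos : 0 ≤ t := by
        apply div_nonneg _ hneg.le
        linarith
      have := h (y0 + t • y) (by
        intro i
        rw [dotProduct_add, dotProduct_smul, smul_eq_mul]
        have := mul_nonpos_of_nonneg_of_nonpos htpos (hyi i)
        linarith [hy0 i]) (by
        intro j
        rw [dotProduct_add, dotProduct_smul, smul_eq_mul, hp' j, hy0' j]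
        simp)
      rw [dotProduct_add, dotProduct_smul, smul_eq_mul, ht, div_mul_cancel₀ _ hneg.ne'] at this
      linarith
    · have := h (s⁻¹ • y) (by
        intro i
        rw [dotProduct_smul, smul_eq_mul]
        rw [inv_mul_le_iff₀ hs0]
        linarith [hyi i, mul_comm (b i) s]) (by
        intro j
        rw [dotProduct_smul, smul_eq_mul, hp' j]
        field_simp)
      rw [dotProduct_smul, smul_eq_mul] at this
      have h2 : s * (s⁻¹ * (o ⬝ᵥ y) + o0) ≤ s * β := mul_le_mul_of_nonneg_left this hs0.le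
      rw [mul_add, ← mul_assoc, mul_inv_cancel₀ hs0.ne', one_mul] at h2
      linarith [mul_comm s o0, mul_comm s β])
  refine ⟨l, hl, fun y hy => ?_⟩
  have := hx ⟨(y, 1), (hU _).2 (by simpa using hy)⟩
  rw [Fin.sum_univ_succ, hA0] at this
  simp only [hAs, LinearMap.comp_apply, Submodule.subtype_apply, hF] at this
  simp only [mul_one] at this
  have h4 : ∑ i : Fin r, l i.succ * (b i - a i ⬝ᵥ y)
      = - ∑ i : Fin r, l i.succ * (a i ⬝ᵥ y - b i) := by
    rw [← Finset.sum_neg_distrib]
    exact Finset.sum_congr rfl fun i _ => by ring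
  rw [h4]
  linarith

end Pool.Agent.Lib.MP_678664_lc_h67
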