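import Pool.Agent.Lib.MP_678664_lc_h67.Defs
import Pool.Agent.Lib.MP_678664_lc_h67.Farkas
import Pool.Agent.Lib.MP_678664_lc_h67.Design

/-!
Graphs of rows, vertex sets of columns, and the lower bound with free parameters.
-/

set_option autoImplicit false

namespace Pool.Agent.Lib.MP_678664_lc_h67

open Finset

section graph
variable {n k N : ℕ} {S : Type}

/-- Vertex `i` of group `v`. -/
def vert (h : k * N ≤ n) (v : Fin k) (i : Fin N) : Fin n :=
  ⟨N * v + i, by
    have h1 : N * v + i < N * (v + 1) := by have := i.2; rw [mul_add, mul_one]; omega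
    have h2 : N * ((v : ℕ) + 1) ≤ N * k := Nat.mul_le_mul_left _ v.2
    rw [mul_comm k N] at h
    omega⟩

theorem vert_lt (h : k * N ≤ n) {v w : Fin k} (hvw : v < w) (i j : Fin N) :
    vert h v i < vert h w j := by
  show N * (v : ℕ) + i < N * w + j
  have h1 : N * ((v : ℕ) + 1) ≤ N * w := Nat.mul_le_mul_left _ hvw
  have := i.2
  rw [mul_add, mul_one] at h1
  omega

theorem vert_inj (h : k * N ≤ n) {v w : Fin k} {i j : Fin N} (he : vert h v i = vert h w j) :
    v = w ∧ i = j := by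
  rcases lt_trichotomy v w with h1 | h1 | h1
  · exact absurd he (vert_lt h h1 i j).ne
  · subst h1
    refine ⟨rfl, ?_⟩
    have : N * (v : ℕ) + i = N * v + j := congrArg Fin.val he
    exact Fin.ext (by omega)
  · exact absurd he (vert_lt h h1 j i).ne'

/-- The graph of a row. -/
def rowGraph (h : k * N ≤ n) (ok : Fin k → Fin k → S → S → Prop)
    (hsymm : ∀ v w s t, ok v w s t → ok w v t s) (x : Fin k → Fin N → S) :
    SimpleGraph (Fin n) where
  Adj a b := ∃ v w i j, vert h v i = a ∧ vert h w j = b ∧ v ≠ w ∧ ok v w (x v i) (x w j)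
  symm := ⟨by
    rintro a b ⟨v, w, i, j, hv, hw, hvw, hok⟩
    exact ⟨w, v, j, i, hw, hv, hvw.symm, hsymm _ _ _ _ hok⟩⟩
  loopless := ⟨by
    rintro a ⟨v, w, i, j, hv, hw, hvw, hok⟩
    exact hvw (vert_inj h (hv.trans hw.symm)).1⟩

theorem rowGraph_adj (h : k * N ≤ n) (ok : Fin k → Fin k → S → S → Prop)
    (hsymm : ∀ v w s t, ok v w s t → ok w v t s) (x : Fin k → Fin N → S)
    (v w : Fin k) (i j : Fin N) :
    (rowGraph h ok hsymm x).Adj (vert h v i) (vert h w j) ↔ v ≠ w ∧ ok v w (x v i) (x w j) := by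
  constructor
  · rintro ⟨v', w', i', j', hv, hw, hvw, hok⟩
    obtain ⟨rfl, rfl⟩ := vert_inj h hv
    obtain ⟨rfl, rfl⟩ := vert_inj h hw
    exact ⟨hvw, hok⟩
  · rintro ⟨hvw, hok⟩
    exact ⟨v, w, i, j, rfl, rfl, hvw, hok⟩

/-- The vertex set of a column. -/
def colSet (h : k * N ≤ n) (y : Fin k → Fin N) : Finset (Fin n) :=
  Finset.univ.image fun v => vert h v (y v)

theorem colSet_inj (h : k * N ≤ n) (y : Fin k → Fin N) :
    Function.Injective fun v => vert h v (y v) :=
  fun _ _ he => (vert_inj h he).1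

theorem card_colSet (h : k * N ≤ n) (y : Fin k → Fin N) : (colSet h y).card = k := by
  unfold colSet
  rw [Finset.card_image_of_injective _ (colSet_inj h y), Finset.card_univ, Fintype.card_fin]

open Classical in
theorem edgesIn_colSet (h : k * N ≤ n) (ok : Fin k → Fin k → S → S → Prop)
    (hsymm : ∀ v w s t, ok v w s t → ok w v t s) (x : Fin k → Fin N → S) (y : Fin k → Fin N) :
    edgesIn (rowGraph h ok hsymm x) (colSet h y)
      = (Finset.univ.filter fun p : Fin k × Fin k =>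
          p.1 < p.2 ∧ ok p.1 p.2 (x p.1 (y p.1)) (x p.2 (y p.2))).card := by
  unfold edgesIn
  rw [← Finset.card_image_of_injective (Finset.univ.filter fun p : Fin k × Fin k =>
          p.1 < p.2 ∧ ok p.1 p.2 (x p.1 (y p.1)) (x p.2 (y p.2)))
    (f := fun p : Fin k × Fin k => (vert h p.1 (y p.1), vert h p.2 (y p.2)))
    (by
      rintro ⟨v, w⟩ ⟨v', w'⟩ he
      rw [Prod.mk.injEq] at he
      rw [Prod.mk.injEq]
      exact ⟨(vert_inj h he.1).1, (vert_inj h he.2).1⟩)]
  congr 1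
  ext ⟨a, b⟩
  simp only [colSet, Finset.mem_filter, Finset.mem_product, Finset.mem_image, Finset.mem_univ,
    true_and, Prod.mk.injEq, Prod.exists]
  constructor
  · rintro ⟨⟨⟨v, rfl⟩, ⟨w, rfl⟩⟩, hlt, hadj⟩
    obtain ⟨hvw, hok⟩ := (rowGraph_adj h ok hsymm x v w _ _).1 hadj
    refine ⟨v, w, ⟨?_, hok⟩, rfl, rfl⟩
    rcases lt_trichotomy v w with h1 | h1 | h1
    · exact h1
    · exact absurd h1 hvw
    · exact absurd hlt (vert_lt h h1 _ _).not_gt
  · rintro ⟨v, w, ⟨hvw, hok⟩, rfl, rfl⟩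
    exact ⟨⟨⟨v, rfl⟩, ⟨w, rfl⟩⟩, vert_lt h hvw _ _,
      (rowGraph_adj h ok hsymm x v w _ _).2 ⟨hvw.ne, hok⟩⟩

theorem rowGraph_cliqueFree (h : k * N ≤ n) (ok : Fin k → Fin k → S → S → Prop) [Nonempty S]
    (hsymm : ∀ v w s t, ok v w s t → ok w v t s) (x : Fin k → Fin N → S) (u : ℕ) (hu : 3 ≤ u)
    (hno : ∀ (z : Fin k → S) (U : Finset (Fin k)), U.card = u → ¬ Cons ok U z) :
    (rowGraph h ok hsymm x).CliqueFree u := by
  classical
  intro s hs
  have hcl := hs.isClique
  have hcard := hs.card_eq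
  have hrep : ∀ a ∈ s, ∃ q : Fin k × Fin N, vert h q.1 q.2 = a := by
    intro a ha
    obtain ⟨b, hb, hba⟩ := Finset.exists_mem_ne (by omega : 1 < s.card) a
    obtain ⟨v, w, i, j, hv, hw, hvw, hok⟩ := hcl (Finset.mem_coe.2 ha) (Finset.mem_coe.2 hb) hba.symm
    exact ⟨(v, i), hv⟩
  obtain ⟨a0, ha0⟩ : s.Nonempty := Finset.card_pos.1 (by omega)
  obtain ⟨q0, _⟩ := hrep a0 ha0
  have : Nonempty (Fin k × Fin N) := ⟨q0⟩
  have : Nonempty (Fin n) := ⟨a0⟩
  choose! τ hτ using hrep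
  have hadj : ∀ a ∈ s, ∀ b ∈ s, a ≠ b → (τ a).1 ≠ (τ b).1 ∧
      ok (τ a).1 (τ b).1 (x (τ a).1 (τ a).2) (x (τ b).1 (τ b).2) := by
    intro a ha b hb hab
    have h1 := hcl (Finset.mem_coe.2 ha) (Finset.mem_coe.2 hb) hab
    rw [← hτ a ha, ← hτ b hb] at h1
    have h2 := (rowGraph_adj h ok hsymm x _ _ _ _).1 h1
    exact h2
  have hinj : Set.InjOn (fun a => (τ a).1) (s : Set (Fin n)) := by
    intro a ha b hb hab
    by_contra hne
    exact (hadj a (Finset.mem_coe.1 ha) b (Finset.mem_coe.1 hb) hne).1 hab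
  have hex : ∀ v ∈ s.image (fun a => (τ a).1), ∃ a ∈ s, (τ a).1 = v := fun v hv =>
    Finset.mem_image.1 hv
  choose! σ hσs hσ using hex
  refine hno (fun v => x (τ (σ v)).1 (τ (σ v)).2) (s.image fun a => (τ a).1)
    (by rw [Finset.card_image_of_injOn hinj, hcard]) ?_
  intro v hv w hw hvw
  have hne : σ v ≠ σ w := by
    intro he
    exact hvw (by rw [← hσ v hv, ← hσ w hw, he])
  have h3 := (hadj (σ v) (hσs v hv) (σ w) (hσs w hw) hne).2
  have e1 : (τ (σ v)).1 = v := hσ v hv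
  have e2 : (τ (σ w)).1 = w := hσ w hw
  show ok v w (x (τ (σ v)).1 (τ (σ v)).2) (x (τ (σ w)).1 (τ (σ w)).2)
  rw [e1, e2] at h3 ⊢
  exact h3

theorem card_lt_pairs (k : ℕ) :
    (Finset.univ.filter fun p : Fin k × Fin k => p.1 < p.2).card = k.choose 2 := by
  classical
  have h1 : (Finset.univ : Finset (Fin k)).offDiag
      = (Finset.univ.filter fun p : Fin k × Fin k => p.1 < p.2)
        ∪ (Finset.univ.filter fun p : Fin k × Fin k => p.2 < p.1) := by
    ext ⟨a, b⟩
    simp only [Finset.mem_offDiag, Finset.mem_univ, true_and, Finset.mem_union, Finset.mem_filter]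
    exact lt_or_lt_iff_ne.symm
  have h2 : (Finset.univ.filter fun p : Fin k × Fin k => p.2 < p.1).card
      = (Finset.univ.filter fun p : Fin k × Fin k => p.1 < p.2).card := by
    refine Finset.card_bij (fun p _ => (p.2, p.1)) ?_ ?_ ?_
    · intro p hp; simpa using hp
    · rintro ⟨a, b⟩ _ ⟨c, d⟩ _ he
      simp only [Prod.mk.injEq] at he
      rw [Prod.mk.injEq]; exact ⟨he.2, he.1⟩
    · rintro ⟨a, b⟩ hp
      exact ⟨(b, a), by simpa using hp, rfl⟩
  have h3 : Disjoint (Finset.univ.filter fun p : Fin k × Fin k => p.1 < p.2)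
      (Finset.univ.filter fun p : Fin k × Fin k => p.2 < p.1) := by
    rw [Finset.disjoint_filter]
    intro p _ h4 h5
    exact absurd h4 h5.not_gt
  have h4 := congrArg Finset.card h1
  rw [Finset.card_union_of_disjoint h3, h2, Finset.offDiag_card, Finset.card_univ,
    Fintype.card_fin] at h4
  rw [Nat.choose_two_right, Nat.mul_sub, mul_one, h4]
  omega

end graph

/-- The lower bound with free parameters. -/
theorem lower_param (k u : ℕ) (hu : 3 ≤ u) (huk : u ≤ k) :
    ∃ B : ℝ, 1 ≤ B ∧ ∀ (n N r : ℕ) (ε : ℝ), 0 < N → k * N ≤ n → 0 ≤ ε →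
      Nonempty (LPFormulation n k u ε r) → ∀ (T L : ℝ) (t : ℕ), 1 ≤ L → 0 ≤ T →
      (1 - 1 / L) ^ t ≤ Real.exp (-T) → (t : ℝ) ≤ N →
      ε - k * ((T + 2 * B ^ 2) / √L) * k.choose 2
        ≤ (r + 1) * (k.choose 2 * (B * (t / N) ^ u + (u + 1) * (B * Real.exp (-T)))) := by
  classical
  obtain ⟨S, hS1, hS2, ok, q, hq, hsymm, hext, hno⟩ := exists_design k u hu
  obtain ⟨B0, hB0⟩ := exists_bound (κ := Fin k) ok q u
  refine ⟨max B0 1, le_max_right _ _, ?_⟩
  have hB : ∀ (F : Finset (Finset (Fin k))) z, |∑ J ∈ F, pureComp ok q u J z| ≤ max B0 1 :=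
    fun F z => (hB0 F z).trans (le_max_left _ _)
  set B := max B0 1
  intro n N r ε hN hkn hε hF T L t hL hT ht htN
  obtain ⟨F⟩ := hF
  have : Nonempty (Fin N) := ⟨⟨0, hN⟩⟩
  -- number of violated pairs
  let V : (Fin k → S) → ℝ := fun z =>
    ∑ p ∈ Finset.univ.filter (fun p : Fin k × Fin k => p.1 < p.2),
      if ok p.1 p.2 (z p.1) (z p.2) then (0 : ℝ) else 1
  have hVm : ∀ z, V z ≤ k.choose 2 := by
    intro z
    rw [← card_lt_pairs k, Finset.card_eq_sum_ones]
    push_cast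
    refine Finset.sum_le_sum fun p _ => ?_
    split_ifs <;> norm_num
  have hVe : ∀ (x : Fin k → Fin N → S) (y : Fin k → Fin N),
      V (fun v => x v (y v)) = k.choose 2 - (edgesIn (rowGraph hkn ok hsymm x) (colSet hkn y) : ℝ) := by
    intro x y
    rw [edgesIn_colSet, ← card_lt_pairs k]
    rw [Finset.card_eq_sum_ones, Finset.card_eq_sum_ones, ← Finset.filter_filter,
      Finset.sum_filter (s := Finset.univ.filter fun p : Fin k × Fin k => p.1 < p.2)]
    push_cast
    rw [← Finset.sum_sub_distrib]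
    refine Finset.sum_congr rfl fun p _ => ?_
    split_ifs <;> norm_num
  have hWV : ∑ z, V z * ∑ J, pureComp ok q u J z = 0 := by
    simp only [V, Finset.sum_mul]
    rw [Finset.sum_comm]
    refine Finset.sum_eq_zero fun p hp => ?_
    have hne : p.1 ≠ p.2 := (Finset.mem_filter.1 hp).2.ne
    exact orth_pair ok hsymm q u hext (by omega) p.1 p.2 hne
      (fun s t => if ok p.1 p.2 s t then (0 : ℝ) else 1) (fun s t hst => if_pos hst)
  -- the factorization
  have hfk : ∀ x : Fin k → Fin N → S, ∃ l : Fin (r + 1) → ℝ, (∀ i, 0 ≤ l i) ∧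
      ∀ y : Fin F.d → ℝ, (∀ j, F.c j ⬝ᵥ y = F.e j) →
        (k.choose 2 - ε) - (F.obj (rowGraph hkn ok hsymm x) ⬝ᵥ y
          + F.obj0 (rowGraph hkn ok hsymm x)) = l 0 + ∑ i : Fin r, l i.succ * (F.b i - F.a i ⬝ᵥ y) := by
    intro x
    have hy0 : (colSet hkn (fun _ : Fin k => (⟨0, hN⟩ : Fin N))).card = k := card_colSet _ _
    exact farkas_affine F.a F.b F.c F.e _ _ _ (F.point _) (F.point_le _ hy0) (F.point_eq _ hy0)
      (F.sound _ (rowGraph_cliqueFree hkn ok hsymm x u hu hno))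
  choose l hl0 hl using hfk
  have hmain := core (κ := Fin k) (α := Fin N) u (by simpa using huk) (pureComp ok q u) B
    (fun J g hg z => pure_mean ok hsymm q u hext J g hg z) hB
    (fun I hI z => by rw [sum_pure ok q u I hI]; exact rho_nonneg ok q hq I z)
    T L hL hT t ht (by simpa using htN) V (k.choose 2) ε hVm hε hWV
    (sum_test ok hsymm q u hext (by omega)) (r + 1)
    (fun i x => l x i)
    (fun i y => Fin.cases (motive := fun _ => ℝ) 1 (fun i' => F.b i' - F.a i' ⬝ᵥ F.point (colSet hkn y)) i)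
    (fun i x => hl0 x i)
    (fun i y => by
      refine Fin.cases ?_ ?_ i
      · simp
      · intro i'
        simp only [Fin.cases_succ]
        linarith [F.point_le _ (card_colSet hkn y) i'])
    (fun x y => by
      rw [Fin.sum_univ_succ]
      simp only [Fin.cases_zero, Fin.cases_succ, mul_one]
      rw [← hl x (F.point (colSet hkn y)) (F.point_eq _ (card_colSet hkn y)),
        F.obj_point _ _ (card_colSet hkn y), hVe]
      ring)
  simpa using hmain

end Pool.Agent.Lib.MP_678664_lc_h67
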