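import Pool.Agent.Lib.MP_678664_lc_h67.Defs

/-!
A formulation of the gap clique problem with `n.choose u` inequalities.
-/

set_option autoImplicit false

namespace Pool.Agent.Lib.MP_678664_lc_h67

open Finset

theorem card_lt_pairs_of {α : Type*} [LinearOrder α] (T : Finset α) :
    ((T ×ˢ T).filter fun p => p.1 < p.2).card = T.card.choose 2 := by
  have h1 : T.offDiag = ((T ×ˢ T).filter fun p => p.1 < p.2)
        ∪ ((T ×ˢ T).filter fun p => p.2 < p.1) := by
    ext ⟨a, b⟩
    simp only [Finset.mem_offDiag, Finset.mem_union, Finset.mem_filter, Finset.mem_product]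
    constructor
    · rintro ⟨ha, hb, hne⟩
      rcases lt_or_gt_of_ne hne with h | h
      · exact Or.inl ⟨⟨ha, hb⟩, h⟩
      · exact Or.inr ⟨⟨ha, hb⟩, h⟩
    · rintro (⟨⟨ha, hb⟩, h⟩ | ⟨⟨ha, hb⟩, h⟩)
      · exact ⟨ha, hb, h.ne⟩
      · exact ⟨ha, hb, h.ne'⟩
  have h2 : ((T ×ˢ T).filter fun p => p.2 < p.1).card
      = ((T ×ˢ T).filter fun p => p.1 < p.2).card := by
    refine Finset.card_bij (fun p _ => (p.2, p.1)) ?_ ?_ ?_
    · intro p hp
      rw [Finset.mem_filter, Finset.mem_product] at hp ⊢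
      exact ⟨⟨hp.1.2, hp.1.1⟩, hp.2⟩
    · rintro ⟨a, b⟩ _ ⟨c, d⟩ _ he
      simp only [Prod.mk.injEq] at he
      rw [Prod.mk.injEq]; exact ⟨he.2, he.1⟩
    · rintro ⟨a, b⟩ hp
      rw [Finset.mem_filter, Finset.mem_product] at hp
      exact ⟨(b, a), by
        rw [Finset.mem_filter, Finset.mem_product]; exact ⟨⟨hp.1.2, hp.1.1⟩, hp.2⟩, rfl⟩
  have h3 : Disjoint ((T ×ˢ T).filter fun p => p.1 < p.2)
      ((T ×ˢ T).filter fun p => p.2 < p.1) := by
    rw [Finset.disjoint_filter]
    intro p _ h4 h5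
    exact absurd h4 h5.not_gt
  have h4 := congrArg Finset.card h1
  rw [Finset.card_union_of_disjoint h3, h2, Finset.offDiag_card] at h4
  rw [Nat.choose_two_right, Nat.mul_sub, mul_one, h4]
  omega

theorem card_superset_pairs {α : Type*} [DecidableEq α] (S : Finset α) (u : ℕ) (hu : 2 ≤ u)
    (a b : α) (ha : a ∈ S) (hb : b ∈ S) (hab : a ≠ b) :
    ((S.powersetCard u).filter fun T => a ∈ T ∧ b ∈ T).card = (S.card - 2).choose (u - 2) := by
  have h1 : (((S.erase a).erase b).powersetCard (u - 2)).card = (S.card - 2).choose (u - 2) := by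
    rw [Finset.card_powersetCard, Finset.card_erase_of_mem
      (Finset.mem_erase.2 ⟨hab.symm, hb⟩), Finset.card_erase_of_mem ha]
    rfl
  rw [← h1]
  refine Finset.card_bij' (fun T _ => (T.erase a).erase b) (fun T _ => insert a (insert b T))
    ?_ ?_ ?_ ?_
  · intro T hT
    rw [Finset.mem_filter, Finset.mem_powersetCard] at hT
    obtain ⟨⟨hTS, hTc⟩, haT, hbT⟩ := hT
    rw [Finset.mem_powersetCard]
    refine ⟨Finset.erase_subset_erase _ (Finset.erase_subset_erase _ hTS), ?_⟩
    rw [Finset.card_erase_of_mem (Finset.mem_erase.2 ⟨hab.symm, hbT⟩),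
      Finset.card_erase_of_mem haT, hTc]
    rfl
  · intro T hT
    rw [Finset.mem_powersetCard] at hT
    obtain ⟨hTS, hTc⟩ := hT
    have hbT : b ∉ T := fun h => (Finset.mem_erase.1 (hTS h)).1 rfl
    have haT : a ∉ insert b T := by
      intro h
      rcases Finset.mem_insert.1 h with h | h
      · exact hab h
      · exact (Finset.mem_erase.1 (Finset.mem_erase.1 (hTS h)).2).1 rfl
    rw [Finset.mem_filter, Finset.mem_powersetCard]
    refine ⟨⟨?_, ?_⟩, Finset.mem_insert_self _ _,
      Finset.mem_insert_of_mem (Finset.mem_insert_self _ _)⟩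
    · intro x hx
      rcases Finset.mem_insert.1 hx with rfl | hx
      · exact ha
      rcases Finset.mem_insert.1 hx with rfl | hx
      · exact hb
      · exact (Finset.mem_erase.1 (Finset.mem_erase.1 (hTS hx)).2).2
    · rw [Finset.card_insert_of_notMem haT, Finset.card_insert_of_notMem hbT, hTc]
      omega
  · intro T hT
    rw [Finset.mem_filter] at hT
    rw [Finset.insert_erase (Finset.mem_erase.2 ⟨hab.symm, hT.2.2⟩), Finset.insert_erase hT.2.1]
  · intro T hT
    rw [Finset.mem_powersetCard] at hT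
    obtain ⟨hTS, hTc⟩ := hT
    have hbT : b ∉ T := fun h => (Finset.mem_erase.1 (hTS h)).1 rfl
    have haT : a ∉ insert b T := by
      intro h
      rcases Finset.mem_insert.1 h with h | h
      · exact hab h
      · exact (Finset.mem_erase.1 (Finset.mem_erase.1 (hTS h)).2).1 rfl
    rw [Finset.erase_insert haT, Finset.erase_insert hbT]

theorem sum_edgesIn {n : ℕ} (G : SimpleGraph (Fin n)) (S : Finset (Fin n)) (u : ℕ) (hu : 2 ≤ u) :
    ∑ T ∈ S.powersetCard u, edgesIn G T = (S.card - 2).choose (u - 2) * edgesIn G S := by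
  classical
  have h1 : ∀ T ∈ S.powersetCard u, edgesIn G T
      = ∑ p ∈ (S ×ˢ S).filter (fun p => p.1 < p.2 ∧ G.Adj p.1 p.2),
          if p.1 ∈ T ∧ p.2 ∈ T then 1 else 0 := by
    intro T hT
    rw [Finset.mem_powersetCard] at hT
    rw [← Finset.card_filter]
    unfold edgesIn
    congr 1
    ext p
    simp only [Finset.mem_filter, Finset.mem_product]
    constructor
    · rintro ⟨⟨h1, h2⟩, h3⟩
      exact ⟨⟨⟨hT.1 h1, hT.1 h2⟩, h3⟩, h1, h2⟩
    · rintro ⟨⟨_, h3⟩, h1, h2⟩
      exact ⟨⟨h1, h2⟩, h3⟩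
  rw [Finset.sum_congr rfl h1, Finset.sum_comm]
  have h2 : ∀ p ∈ (S ×ˢ S).filter (fun p => p.1 < p.2 ∧ G.Adj p.1 p.2),
      ∑ T ∈ S.powersetCard u, (if p.1 ∈ T ∧ p.2 ∈ T then 1 else 0)
        = (S.card - 2).choose (u - 2) := by
    intro p hp
    rw [Finset.mem_filter, Finset.mem_product] at hp
    rw [← Finset.card_filter]
    exact card_superset_pairs S u hu p.1 p.2 hp.1.1 hp.1.2 hp.2.1.ne
  rw [Finset.sum_congr rfl h2, Finset.sum_const, smul_eq_mul, mul_comm]
  congr 1

theorem edgesIn_lt {n : ℕ} (G : SimpleGraph (Fin n)) (u : ℕ) (hG : G.CliqueFree u)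
    (T : Finset (Fin n)) (hT : T.card = u) : edgesIn G T < u.choose 2 := by
  classical
  rw [← hT, ← card_lt_pairs_of T]
  unfold edgesIn
  refine Finset.card_lt_card ?_
  rw [Finset.ssubset_iff_of_subset]
  · by_contra hneg
    push Not at hneg
    refine hG T ⟨?_, hT⟩
    intro a ha b hb hab
    rcases lt_or_gt_of_ne hab with h | h
    · have := hneg (a, b) (Finset.mem_filter.2 ⟨Finset.mem_product.2 ⟨ha, hb⟩, h⟩)
      exact (Finset.mem_filter.1 this).2.2
    · have := hneg (b, a) (Finset.mem_filter.2 ⟨Finset.mem_product.2 ⟨hb, ha⟩, h⟩)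
      exact (Finset.mem_filter.1 this).2.2.symm
  · intro p hp
    rw [Finset.mem_filter] at hp ⊢
    exact ⟨hp.1, hp.2.1⟩

theorem upper (n k u : ℕ) (hu : 2 ≤ u) (huk : u ≤ k) :
    Nonempty (LPFormulation n k u 1 (n.choose u)) := by
  classical
  have hcard : Fintype.card {T : Finset (Fin n) // T.card = u} = n.choose u := by
    rw [Fintype.card_finset_len, Fintype.card_fin]
  let E : Fin (n.choose u) ≃ {T : Finset (Fin n) // T.card = u} :=
    (Fintype.equivFinOfCardEq hcard).symm
  set K : ℝ := (k.choose 2 : ℝ) with hK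
  set U : ℝ := (u.choose 2 : ℝ) with hU
  set C : ℝ := (k.choose u : ℝ) with hC
  have hUpos : 0 < U := by rw [hU]; exact_mod_cast Nat.choose_pos hu
  have hCpos : 0 < C := by rw [hC]; exact_mod_cast Nat.choose_pos huk
  have hKU : U ≤ K := by rw [hK, hU]; exact_mod_cast Nat.choose_le_choose 2 huk
  -- sums over the subsets of `S`
  have hsum : ∀ (S : Finset (Fin n)) (f : Finset (Fin n) → ℝ),
      ∑ j, f (E j) * (if ((E j : Finset (Fin n)) ⊆ S) then 1 / C else 0)
        = (∑ T ∈ S.powersetCard u, f T) / C := by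
    intro S f
    rw [E.sum_comp (fun T : {T : Finset (Fin n) // T.card = u} =>
      f T * (if ((T : Finset (Fin n)) ⊆ S) then 1 / C else 0)), Finset.sum_div]
    have h1 : ∑ T : {T : Finset (Fin n) // T.card = u},
        f T * (if ((T : Finset (Fin n)) ⊆ S) then 1 / C else 0)
        = ∑ T ∈ Finset.univ.filter (fun T : Finset (Fin n) => T.card = u),
          f T * (if (T ⊆ S) then 1 / C else 0) := by
      rw [← Finset.sum_subtype_eq_sum_filter]
      simp
    rw [h1]
    have h2 : S.powersetCard u ⊆ Finset.univ.filter (fun T : Finset (Fin n) => T.card = u) := by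
      intro T hT
      rw [Finset.mem_powersetCard] at hT
      exact Finset.mem_filter.2 ⟨Finset.mem_univ _, hT.2⟩
    rw [← Finset.sum_subset h2]
    · refine Finset.sum_congr rfl fun T hT => ?_
      rw [if_pos (Finset.mem_powersetCard.1 hT).1]
      ring
    · intro T hT hT2
      rw [if_neg, mul_zero]
      intro h3
      exact hT2 (Finset.mem_powersetCard.2 ⟨h3, (Finset.mem_filter.1 hT).2⟩)
  refine ⟨{
    d := n.choose u
    m := 1
    a := fun i => - Pi.single i 1
    b := fun _ => 0
    c := fun _ _ => 1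
    e := fun _ => 1
    point := fun S j => if ((E j : Finset (Fin n)) ⊆ S) then 1 / C else 0
    obj := fun G j => (edgesIn G (E j) : ℝ) * (K / U)
    obj0 := fun _ => 0
    point_le := ?_
    point_eq := ?_
    obj_point := ?_
    sound := ?_ }⟩
  · intro S _ i
    rw [neg_dotProduct, single_one_dotProduct]
    have : (0 : ℝ) ≤ if ((E i : Finset (Fin n)) ⊆ S) then 1 / C else 0 := by
      split_ifs
      · positivity
      · exact le_rfl
    linarith
  · intro S hS _
    have h1 := hsum S (fun _ => 1)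
    simp only [dotProduct]
    rw [h1, Finset.sum_const, Finset.card_powersetCard, hS, nsmul_eq_mul, mul_one]
    exact div_self hCpos.ne'
  · intro G S hS
    simp only [dotProduct, add_zero]
    have h1 := hsum S (fun T => (edgesIn G T : ℝ) * (K / U))
    rw [h1, ← Finset.sum_mul]
    have h2 : ∑ T ∈ S.powersetCard u, (edgesIn G T : ℝ)
        = ((k - 2).choose (u - 2) : ℝ) * edgesIn G S := by
      have := sum_edgesIn G S u hu
      rw [hS] at this
      exact_mod_cast this
    have h3 : C * U = K * ((k - 2).choose (u - 2) : ℝ) := by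
      rw [hC, hU, hK]
      exact_mod_cast Nat.choose_mul hu
    rw [h2]
    field_simp
    linarith [congrArg (fun t => t * (edgesIn G S : ℝ)) h3]
  · intro G hG y hy hy1
    have hy0 : ∀ i, 0 ≤ y i := by
      intro i
      have := hy i
      rw [neg_dotProduct, single_one_dotProduct] at this
      linarith
    have hy1' : ∑ j, y j = 1 := by
      have := hy1 0
      simpa [dotProduct] using this
    simp only [dotProduct, add_zero]
    have h1 : ∀ j, (edgesIn G (E j) : ℝ) * (K / U) ≤ K - 1 := by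
      intro j
      have h2 := edgesIn_lt G u hG (E j) (E j).2
      have h3 : (edgesIn G (E j) : ℝ) + 1 ≤ U := by rw [hU]; exact_mod_cast h2
      have h4 : 1 ≤ K / U := by rw [one_le_div hUpos]; exact hKU
      have h5 : (edgesIn G (E j) : ℝ) * (K / U) ≤ (U - 1) * (K / U) :=
        mul_le_mul_of_nonneg_right (by linarith) (by positivity)
      have h6 : (U - 1) * (K / U) = K - K / U := by field_simp
      linarith
    calc ∑ j, (edgesIn G (E j) : ℝ) * (K / U) * y j ≤ ∑ j, (K - 1) * y j :=
          Finset.sum_le_sum fun j _ => mul_le_mul_of_nonneg_right (h1 j) (hy0 j)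
      _ = K - 1 := by rw [← Finset.mul_sum, hy1', mul_one]

end Pool.Agent.Lib.MP_678664_lc_h67
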