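import Pool.Agent.Lib.MP_678664_lc_h67.Core

/-!
The test function of a locally consistent design.  `ok v w s t` says that the values `s` at `v`
and `t` at `w` are compatible.  Every consistent choice on fewer than `u - 1` coordinates has the
same number of extensions to each further coordinate (`ext`).
-/

set_option autoImplicit false

namespace Pool.Agent.Lib.MP_678664_lc_h67

open Finset

/-- Moebius transform of a function on finite sets. -/
noncomputable def moeb {κ : Type*} [DecidableEq κ] (f : Finset κ → ℝ) (J : Finset κ) : ℝ :=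
  ∑ K ∈ J.powerset, (-1 : ℝ) ^ (J.card + K.card) * f K

theorem moeb_insert {κ : Type*} [DecidableEq κ] (f : Finset κ → ℝ) (J : Finset κ) (g : κ)
    (hg : g ∉ J) : moeb f (insert g J) = - moeb f J + moeb (fun K => f (insert g K)) J := by
  unfold moeb
  rw [Finset.sum_powerset_insert hg, Finset.card_insert_of_notMem hg, ← Finset.sum_neg_distrib]
  congr 1
  · refine Finset.sum_congr rfl fun K _ => ?_
    rw [show J.card + 1 + K.card = (J.card + K.card) + 1 by ring, pow_succ]
    ring
  · refine Finset.sum_congr rfl fun K hK => ?_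
    have hgK : g ∉ K := fun h => hg (Finset.mem_powerset.1 hK h)
    rw [Finset.card_insert_of_notMem hgK,
      show J.card + 1 + (K.card + 1) = (J.card + K.card) + 2 by ring, pow_add]
    norm_num

theorem sum_moeb {κ : Type*} [DecidableEq κ] (I : Finset κ) :
    ∀ f : Finset κ → ℝ, ∑ J ∈ I.powerset, moeb f J = f I := by
  induction I using Finset.induction_on with
  | empty => intro f; simp [moeb]
  | insert g I hg ih =>
    intro f
    rw [Finset.sum_powerset_insert hg]
    have h1 : ∑ J ∈ I.powerset, moeb f (insert g J)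
        = ∑ J ∈ I.powerset, (- moeb f J + moeb (fun K => f (insert g K)) J) :=
      Finset.sum_congr rfl fun J hJ => moeb_insert f J g fun h => hg (Finset.mem_powerset.1 hJ h)
    rw [h1, Finset.sum_add_distrib, Finset.sum_neg_distrib, ih, ih]
    ring

variable {κ S : Type*} [Fintype κ] [DecidableEq κ] [Fintype S]

/-- All pairs inside `I` are compatible in `z`. -/
def Cons (ok : κ → κ → S → S → Prop) (I : Finset κ) (z : κ → S) : Prop :=
  ∀ v ∈ I, ∀ w ∈ I, v ≠ w → ok v w (z v) (z w)

open Classical in
/-- Density of the uniform distribution on consistent choices on `I`. -/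
noncomputable def rho (ok : κ → κ → S → S → Prop) (p : ℝ) (I : Finset κ) (z : κ → S) : ℝ :=
  if Cons ok I z then p ^ (I.card.choose 2) else 0

/-- The pure component of the densities on `J`. -/
noncomputable def pureComp (ok : κ → κ → S → S → Prop) (p : ℝ) (u : ℕ) (J : Finset κ)
    (z : κ → S) : ℝ :=
  if J.card < u then moeb (fun I => rho ok p I z) J else 0

/-- The extension property of the design. -/
def Ext (ok : κ → κ → S → S → Prop) (p : ℝ) (u : ℕ) : Prop :=
  ∀ (I : Finset κ) (g : κ), g ∉ I → I.card + 1 < u → ∀ z : κ → S,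
    (Nat.card {s : S // ∀ w ∈ I, ok g w s (z w)} : ℝ) * p ^ I.card = Fintype.card S

omit [Fintype κ] [Fintype S] in
theorem rho_update_of_notMem (ok : κ → κ → S → S → Prop) (p : ℝ) (I : Finset κ) (g : κ)
    (hg : g ∉ I) (z : κ → S) (s : S) : rho ok p I (Function.update z g s) = rho ok p I z := by
  unfold rho
  have : Cons ok I (Function.update z g s) ↔ Cons ok I z := by
    unfold Cons
    constructor
    · intro h v hv w hw hvw
      have := h v hv w hw hvw
      rwa [Function.update_of_ne (ne_of_mem_of_not_mem hv hg),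
        Function.update_of_ne (ne_of_mem_of_not_mem hw hg)] at this
    · intro h v hv w hw hvw
      rw [Function.update_of_ne (ne_of_mem_of_not_mem hv hg),
        Function.update_of_ne (ne_of_mem_of_not_mem hw hg)]
      exact h v hv w hw hvw
  by_cases hc : Cons ok I z
  · rw [if_pos hc, if_pos (this.2 hc)]
  · rw [if_neg hc, if_neg (fun h => hc (this.1 h))]

theorem sum_rho_update (ok : κ → κ → S → S → Prop)
    (hsymm : ∀ v w s t, ok v w s t → ok w v t s) (p : ℝ) (u : ℕ) (hext : Ext ok p u)
    (I : Finset κ) (g : κ) (hg : g ∉ I) (hI : I.card + 1 < u) (z : κ → S) :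
    ∑ s, rho ok p (insert g I) (Function.update z g s) = Fintype.card S * rho ok p I z := by
  classical
  have hcons : ∀ s, Cons ok (insert g I) (Function.update z g s) ↔
      (Cons ok I z ∧ ∀ w ∈ I, ok g w s (z w)) := by
    intro s
    constructor
    · intro h
      refine ⟨fun v hv w hw hvw => ?_, fun w hw => ?_⟩
      · have := h v (Finset.mem_insert_of_mem hv) w (Finset.mem_insert_of_mem hw) hvw
        rwa [Function.update_of_ne (ne_of_mem_of_not_mem hv hg),
          Function.update_of_ne (ne_of_mem_of_not_mem hw hg)] at this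
      · have hgw : g ≠ w := (ne_of_mem_of_not_mem hw hg).symm
        have := h g (Finset.mem_insert_self _ _) w (Finset.mem_insert_of_mem hw) hgw
        rwa [Function.update_self, Function.update_of_ne hgw.symm] at this
    · rintro ⟨h1, h2⟩ v hv w hw hvw
      rcases Finset.mem_insert.1 hv with rfl | hv'
      · have hw' := (Finset.mem_insert.1 hw).resolve_left (Ne.symm hvw)
        rw [Function.update_self, Function.update_of_ne (Ne.symm hvw)]
        exact h2 w hw'
      · have hvg : v ≠ g := ne_of_mem_of_not_mem hv' hg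
        rcases Finset.mem_insert.1 hw with rfl | hw'
        · rw [Function.update_self, Function.update_of_ne hvg]
          exact hsymm _ _ _ _ (h2 v hv')
        · rw [Function.update_of_ne hvg, Function.update_of_ne (ne_of_mem_of_not_mem hw' hg)]
          exact h1 v hv' w hw' hvw
  have hchoose : (insert g I).card.choose 2 = I.card.choose 2 + I.card := by
    rw [Finset.card_insert_of_notMem hg, Nat.choose_succ_succ' I.card 1]
    simp; ring
  unfold rho
  by_cases hc : Cons ok I z
  · simp only [hcons, hc, true_and, if_true]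
    rw [← Finset.sum_filter, Finset.sum_const, nsmul_eq_mul, hchoose, pow_add]
    have hcard : ((Finset.univ.filter fun s : S => ∀ w ∈ I, ok g w s (z w)).card : ℝ)
        = Nat.card {s : S // ∀ w ∈ I, ok g w s (z w)} := by
      rw [Nat.card_eq_fintype_card, Fintype.card_subtype]
    rw [hcard]
    have := hext I g hg hI z
    calc (Nat.card {s : S // ∀ w ∈ I, ok g w s (z w)} : ℝ)
          * (p ^ I.card.choose 2 * p ^ I.card)
        = ((Nat.card {s : S // ∀ w ∈ I, ok g w s (z w)} : ℝ) * p ^ I.card)
          * p ^ I.card.choose 2 := by ring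
      _ = _ := by rw [this]
  · simp only [hcons, hc, false_and, if_false, Finset.sum_const_zero, mul_zero]

theorem pure_mean (ok : κ → κ → S → S → Prop)
    (hsymm : ∀ v w s t, ok v w s t → ok w v t s) (p : ℝ) (u : ℕ) (hext : Ext ok p u)
    (J : Finset κ) (g : κ) (hg : g ∈ J) (z : κ → S) :
    ∑ s, pureComp ok p u J (Function.update z g s) = 0 := by
  unfold pureComp
  by_cases hJ : J.card < u
  · simp only [hJ, if_true]
    obtain ⟨J', hgJ', rfl⟩ : ∃ J', g ∉ J' ∧ insert g J' = J :=
      ⟨J.erase g, Finset.notMem_erase g J, Finset.insert_erase hg⟩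
    rw [Finset.card_insert_of_notMem hgJ'] at hJ
    have h1 : ∀ s, moeb (fun I => rho ok p I (Function.update z g s)) (insert g J')
        = - moeb (fun I => rho ok p I z) J'
          + moeb (fun I => rho ok p (insert g I) (Function.update z g s)) J' := by
      intro s
      rw [moeb_insert _ _ _ hgJ']
      congr 2
      unfold moeb
      refine Finset.sum_congr rfl fun K hK => ?_
      show (-1 : ℝ) ^ (J'.card + K.card) * rho ok p K (Function.update z g s)
        = (-1 : ℝ) ^ (J'.card + K.card) * rho ok p K z
      rw [rho_update_of_notMem]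
      exact fun h => hgJ' (Finset.mem_powerset.1 hK h)
    simp only [h1, Finset.sum_add_distrib, Finset.sum_const, nsmul_eq_mul, Finset.card_univ]
    have h2 : ∑ s, moeb (fun I => rho ok p (insert g I) (Function.update z g s)) J'
        = Fintype.card S * moeb (fun I => rho ok p I z) J' := by
      unfold moeb
      rw [Finset.sum_comm, Finset.mul_sum]
      refine Finset.sum_congr rfl fun K hK => ?_
      rw [← Finset.mul_sum, sum_rho_update ok hsymm p u hext K g
        (fun h => hgJ' (Finset.mem_powerset.1 hK h))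
        (lt_of_le_of_lt (Nat.succ_le_succ (Finset.card_le_card (Finset.mem_powerset.1 hK))) hJ) z]
      ring
    rw [h2]; ring
  · simp [hJ]

omit [Fintype κ] [Fintype S] in
theorem sum_pure (ok : κ → κ → S → S → Prop) (p : ℝ) (u : ℕ) (I : Finset κ) (hI : I.card < u)
    (z : κ → S) : ∑ J ∈ I.powerset, pureComp ok p u J z = rho ok p I z := by
  rw [← sum_moeb I (fun I => rho ok p I z)]
  refine Finset.sum_congr rfl fun J hJ => ?_
  unfold pureComp
  rw [if_pos (lt_of_le_of_lt (Finset.card_le_card (Finset.mem_powerset.1 hJ)) hI)]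

omit [Fintype κ] [DecidableEq κ] [Fintype S] in
theorem rho_nonneg (ok : κ → κ → S → S → Prop) (p : ℝ) (hp : 0 ≤ p) (I : Finset κ) (z : κ → S) :
    0 ≤ rho ok p I z := by
  unfold rho
  split_ifs
  · positivity
  · exact le_rfl

/-- A function that ignores a coordinate of `J` is orthogonal to the component of `J`. -/
theorem orth (ok : κ → κ → S → S → Prop) [Nonempty S]
    (hsymm : ∀ v w s t, ok v w s t → ok w v t s) (p : ℝ) (u : ℕ) (hext : Ext ok p u)
    (J : Finset κ) (g : κ) (hg : g ∈ J) (F : (κ → S) → ℝ)
    (hF : ∀ z s, F (Function.update z g s) = F z) :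
    ∑ z, F z * pureComp ok p u J z = 0 := by
  have h1 := resample (fun z : κ → S => F z * pureComp ok p u J z) g
  have h2 : ∑ z : κ → S, ∑ s : S, F (Function.update z g s) * pureComp ok p u J (Function.update z g s)
      = 0 := by
    refine Finset.sum_eq_zero fun z _ => ?_
    simp only [hF]
    rw [← Finset.mul_sum, pure_mean ok hsymm p u hext J g hg z, mul_zero]
  rw [h2] at h1
  have h3 : (Fintype.card S : ℝ) ≠ 0 := by
    exact_mod_cast Fintype.card_ne_zero
  rcases mul_eq_zero.1 h1.symm with h4 | h4
  · exact absurd h4 h3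
  · exact h4

theorem sum_test (ok : κ → κ → S → S → Prop) [Nonempty S]
    (hsymm : ∀ v w s t, ok v w s t → ok w v t s) (p : ℝ) (u : ℕ) (hext : Ext ok p u)
    (hu : 0 < u) : ∑ z, ∑ J, pureComp ok p u J z = Fintype.card (κ → S) := by
  rw [Finset.sum_comm, Finset.sum_eq_single (∅ : Finset κ)]
  · have : ∀ z, pureComp ok p u (∅ : Finset κ) z = 1 := by
      intro z
      simp [pureComp, moeb, rho, Cons, hu]
    simp only [this, Finset.sum_const, nsmul_eq_mul, mul_one, Finset.card_univ]
  · intro J _ hJ
    obtain ⟨g, hg⟩ := Finset.nonempty_iff_ne_empty.2 hJ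
    have := orth ok hsymm p u hext J g hg (fun _ => 1) (fun _ _ => rfl)
    simpa using this
  · intro h; exact absurd (Finset.mem_univ _) h

theorem orth_pair (ok : κ → κ → S → S → Prop) [Nonempty S]
    (hsymm : ∀ v w s t, ok v w s t → ok w v t s) (p : ℝ) (u : ℕ) (hext : Ext ok p u)
    (hu : 2 < u) (v w : κ) (hvw : v ≠ w) (F : S → S → ℝ)
    (hF : ∀ s t, ok v w s t → F s t = 0) :
    ∑ z : κ → S, F (z v) (z w) * ∑ J, pureComp ok p u J z = 0 := by
  have h1 : ∑ z : κ → S, F (z v) (z w) * ∑ J, pureComp ok p u J z
      = ∑ J, ∑ z : κ → S, F (z v) (z w) * pureComp ok p u J z := by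
    rw [Finset.sum_comm]
    exact Finset.sum_congr rfl fun z _ => Finset.mul_sum _ _ _
  have h2 : ∑ J, ∑ z : κ → S, F (z v) (z w) * pureComp ok p u J z
      = ∑ J ∈ ({v, w} : Finset κ).powerset, ∑ z : κ → S, F (z v) (z w) * pureComp ok p u J z := by
    symm
    refine Finset.sum_subset (Finset.subset_univ _) fun J _ hJ => ?_
    rw [Finset.mem_powerset, Finset.not_subset] at hJ
    obtain ⟨g, hg, hg'⟩ := hJ
    have hgv : v ≠ g := fun h => hg' (by simp [h])
    have hgw : w ≠ g := fun h => hg' (by simp [h])
    exact orth ok hsymm p u hext J g hg (fun z => F (z v) (z w)) (fun z s => by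
      simp only [Function.update_of_ne hgv, Function.update_of_ne hgw])
  rw [h1, h2, Finset.sum_comm]
  refine Finset.sum_eq_zero fun z _ => ?_
  rw [← Finset.mul_sum, sum_pure ok p u _ (by rw [Finset.card_pair hvw]; exact hu)]
  by_cases hok : ok v w (z v) (z w)
  · rw [hF _ _ hok, zero_mul]
  · have : ¬ Cons ok ({v, w} : Finset κ) z := fun h => hok (h v (by simp) w (by simp) hvw)
    simp [rho, this]

theorem exists_bound (ok : κ → κ → S → S → Prop) (p : ℝ) (u : ℕ) :
    ∃ B : ℝ, ∀ (F : Finset (Finset κ)) z, |∑ J ∈ F, pureComp ok p u J z| ≤ B := by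
  classical
  refine ⟨∑ J : Finset κ, ∑ z : κ → S, |pureComp ok p u J z|, fun F z => ?_⟩
  calc |∑ J ∈ F, pureComp ok p u J z| ≤ ∑ J ∈ F, |pureComp ok p u J z| :=
        Finset.abs_sum_le_sum_abs _ _
    _ ≤ ∑ J, |pureComp ok p u J z| :=
        Finset.sum_le_sum_of_subset_of_nonneg (Finset.subset_univ _) fun _ _ _ => abs_nonneg _
    _ ≤ ∑ J : Finset κ, ∑ z : κ → S, |pureComp ok p u J z| :=
        Finset.sum_le_sum fun J _ => Finset.single_le_sum
          (f := fun z => |pureComp ok p u J z|) (fun _ _ => abs_nonneg _) (Finset.mem_univ z)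

end Pool.Agent.Lib.MP_678664_lc_h67
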