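import Pool.Agent.Lib.MP_678664_lc_h67.Bias

/-!
The rectangle lemma.  `h J` (for finite sets `J` of coordinates) are functions with mean zero in
every coordinate of `J`, and all sums `∑_{J ⊆ I} h J` with `|I| < u` are nonnegative.  Then for
all sets of rows `X` and of columns `Y`, the sum over `X × Y` of `∑_J h J` at the pattern
`v ↦ x v (y v)` is bounded below by a tiny negative number.
-/

set_option autoImplicit false

namespace Pool.Agent.Lib.MP_678664_lc_h67

open Finset

/-- Number of columns with prescribed values on `I`. -/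
theorem card_fixed {κ α : Type*} [Fintype κ] [DecidableEq κ] [Fintype α] (I : Finset κ) (y0 : κ → α) (Y : Finset (κ → α))
    (hY : ∀ y ∈ Y, ∀ v ∈ I, y v = y0 v) :
    Y.card ≤ Fintype.card α ^ (Fintype.card κ - I.card) := by
  classical
  have h1 : Fintype.card ((Iᶜ : Finset κ) → α) = Fintype.card α ^ (Fintype.card κ - I.card) := by
    rw [Fintype.card_fun, Fintype.card_coe, Finset.card_compl]
  rw [← h1, ← Finset.card_univ]
  refine Finset.card_le_card_of_injOn (fun y => fun v : (Iᶜ : Finset κ) => y v)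
    (fun y _ => Finset.mem_coe.2 (Finset.mem_univ _)) ?_
  intro y hy y' hy' hyy
  funext v
  by_cases hv : v ∈ I
  · rw [hY y (Finset.mem_coe.1 hy) v hv, hY y' (Finset.mem_coe.1 hy') v hv]
  · exact congrFun hyy ⟨v, Finset.mem_compl.2 hv⟩

variable {κ α S : Type*} [Fintype κ] [DecidableEq κ] [Fintype α] [DecidableEq α]
  [Fintype S] [Nonempty S]

/-- If no coordinate of `G` is heavy in `Y`, all `h J` with `J` meeting `G` can be dropped. -/
theorem drop_terms (h : Finset κ → (κ → S) → ℝ) (B : ℝ)
    (hmean : ∀ J, ∀ g ∈ J, ∀ z, ∑ s, h J (Function.update z g s) = 0)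
    (hB : ∀ (F : Finset (Finset κ)) z, |∑ J ∈ F, h J z| ≤ B)
    (X : Finset (κ → α → S)) (T L : ℝ) (hL : 0 < L)
    (hT : (Fintype.card (κ → α → S) : ℝ) ≤ Real.exp T * X.card)
    (Y : Finset (κ → α)) (G : Finset κ)
    (hY : ∀ g ∈ G, ∀ v, ((Y.filter fun y => y g = v).card : ℝ) * L ≤ Y.card) :
    (∑ x ∈ X, ∑ y ∈ Y, ∑ J ∈ Finset.univ.filter (fun J => Disjoint J G), h J (fun v => x v (y v)))
      - G.card * ((T + 2 * B ^ 2) / √L * X.card * Y.card)
      ≤ ∑ x ∈ X, ∑ y ∈ Y, ∑ J, h J (fun v => x v (y v)) := by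
  induction G using Finset.induction_on with
  | empty => simp
  | insert g G hg ih =>
    have ih' := ih (fun g' hg' => hY g' (Finset.mem_insert_of_mem hg'))
    have hw := bias g
      (fun z => ∑ J ∈ Finset.univ.filter (fun J => Disjoint J G ∧ g ∈ J), h J z) B
      (fun z => hB _ z)
      (fun z => by
        rw [Finset.sum_comm]
        refine Finset.sum_eq_zero fun J hJ => hmean J g ?_ z
        exact (Finset.mem_filter.1 hJ).2.2)
      Y L hL (hY g (Finset.mem_insert_self _ _)) X T hT
    have hsplit : ∀ z : κ → S, ∑ J ∈ Finset.univ.filter (fun J => Disjoint J G), h J z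
        = ∑ J ∈ Finset.univ.filter (fun J => Disjoint J (insert g G)), h J z
          + ∑ J ∈ Finset.univ.filter (fun J => Disjoint J G ∧ g ∈ J), h J z := by
      intro z
      rw [← Finset.sum_union]
      · refine Finset.sum_congr ?_ fun _ _ => rfl
        ext J
        simp only [Finset.mem_filter, Finset.mem_univ, true_and, Finset.mem_union,
          Finset.disjoint_insert_right]
        tauto
      · rw [Finset.disjoint_filter]
        intro J _ h1 h2
        exact (Finset.disjoint_insert_right.1 h1).1 h2.2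
    have hsum : (∑ x ∈ X, ∑ y ∈ Y,
          ∑ J ∈ Finset.univ.filter (fun J => Disjoint J G), h J (fun v => x v (y v)))
        = (∑ x ∈ X, ∑ y ∈ Y,
          ∑ J ∈ Finset.univ.filter (fun J => Disjoint J (insert g G)), h J (fun v => x v (y v)))
        + ∑ x ∈ X, ∑ y ∈ Y,
          ∑ J ∈ Finset.univ.filter (fun J => Disjoint J G ∧ g ∈ J), h J (fun v => x v (y v)) := by
      rw [← Finset.sum_add_distrib]
      refine Finset.sum_congr rfl fun x _ => ?_
      rw [← Finset.sum_add_distrib]
      exact Finset.sum_congr rfl fun y _ => hsplit _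
    rw [hsum] at ih'
    rw [Finset.card_insert_of_notMem hg]
    push_cast
    linarith

/-- The recursion: columns are fixed on `I`, and `|I| + j = u`. -/
theorem rect_aux (u : ℕ) (hu : u ≤ Fintype.card κ) (h : Finset κ → (κ → S) → ℝ) (B : ℝ)
    (hmean : ∀ J, ∀ g ∈ J, ∀ z, ∑ s, h J (Function.update z g s) = 0)
    (hB : ∀ (F : Finset (Finset κ)) z, |∑ J ∈ F, h J z| ≤ B)
    (hpos : ∀ I : Finset κ, I.card < u → ∀ z, 0 ≤ ∑ J ∈ I.powerset, h J z)
    (X : Finset (κ → α → S)) (T L : ℝ) (hL : 1 ≤ L) (hT0 : 0 ≤ T)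
    (hT : (Fintype.card (κ → α → S) : ℝ) ≤ Real.exp T * X.card)
    (t : ℕ) (ht : (1 - 1 / L) ^ t ≤ Real.exp (-T)) (htN : (t : ℝ) ≤ Fintype.card α) :
    ∀ (j : ℕ) (I : Finset κ), I.card + j = u → ∀ (y0 : κ → α) (Y : Finset (κ → α)),
      (∀ y ∈ Y, ∀ v ∈ I, y v = y0 v) →
      -((B * (t / Fintype.card α) ^ j + j * (B * Real.exp (-T))) *
          Fintype.card (κ → α → S) * (Fintype.card α : ℝ) ^ (Fintype.card κ - I.card))
        ≤ (∑ x ∈ X, ∑ y ∈ Y, ∑ J, h J (fun v => x v (y v)))
          + Fintype.card κ * ((T + 2 * B ^ 2) / √L) * X.card * Y.card := by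
  have hB0 : 0 ≤ B := (abs_nonneg _).trans (hB ∅ (fun _ => Classical.arbitrary S))
  have hLpos : 0 < L := by linarith
  set R : ℝ := (Fintype.card (κ → α → S) : ℝ) with hR
  have hR0 : 0 ≤ R := Nat.cast_nonneg _
  have hXR : (X.card : ℝ) ≤ R := by
    rw [hR]; exact_mod_cast Finset.card_le_univ X
  set D : ℝ := Fintype.card κ * ((T + 2 * B ^ 2) / √L) with hD
  have hD0 : 0 ≤ D := by positivity
  -- trivial bound
  have htriv : ∀ Y : Finset (κ → α),
      -(B * R * Y.card) ≤ (∑ x ∈ X, ∑ y ∈ Y, ∑ J, h J (fun v => x v (y v))) + D * X.card * Y.card := by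
    intro Y
    have h1 : -(B * (X.card * Y.card)) ≤ ∑ x ∈ X, ∑ y ∈ Y, ∑ J, h J (fun v => x v (y v)) := by
      have : ∑ x ∈ X, ∑ y ∈ Y, (-B) ≤ ∑ x ∈ X, ∑ y ∈ Y, ∑ J, h J (fun v => x v (y v)) :=
        Finset.sum_le_sum fun x _ => Finset.sum_le_sum fun y _ => (abs_le.1 (hB _ _)).1
      refine le_trans (le_of_eq ?_) this
      simp; ring
    have h2 : B * (X.card * Y.card) ≤ B * R * Y.card := by
      rw [mul_assoc]
      exact mul_le_mul_of_nonneg_left (mul_le_mul_of_nonneg_right hXR (Nat.cast_nonneg _)) hB0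
    have h3 : 0 ≤ D * X.card * Y.card := by positivity
    linarith
  intro j
  induction j with
  | zero =>
    intro I hI y0 Y hY
    have h1 := htriv Y
    have h2 : (Y.card : ℝ) ≤ (Fintype.card α : ℝ) ^ (Fintype.card κ - I.card) := by
      exact_mod_cast card_fixed I y0 Y hY
    have h3 : B * R * Y.card ≤ B * R * (Fintype.card α : ℝ) ^ (Fintype.card κ - I.card) :=
      mul_le_mul_of_nonneg_left h2 (mul_nonneg hB0 hR0)
    simp only [pow_zero, mul_one, Nat.cast_zero, zero_mul, add_zero]
    linarith
  | succ j ihj =>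
    intro I hI y0 Y hY
    set e := Fintype.card κ - I.card with he
    set N : ℝ := (Fintype.card α : ℝ) with hN
    have hN0 : 0 ≤ N := Nat.cast_nonneg _
    set Ej : ℝ := B * (t / N) ^ j + j * (B * Real.exp (-T)) with hEj
    have hEj0 : 0 ≤ Ej := by positivity
    -- inner induction on the number of peeled pieces
    have inner : ∀ (t' : ℕ) (Y : Finset (κ → α)), (∀ y ∈ Y, ∀ v ∈ I, y v = y0 v) →
        (Y.card : ℝ) * (1 - 1 / L) ^ t' ≤ Real.exp (-T) * N ^ e →
        -(t' * Ej * R * N ^ (e - 1) + B * Real.exp (-T) * R * N ^ e)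
          ≤ (∑ x ∈ X, ∑ y ∈ Y, ∑ J, h J (fun v => x v (y v))) + D * X.card * Y.card := by
      intro t'
      induction t' with
      | zero =>
        intro Y hY hYc
        have h1 := htriv Y
        rw [pow_zero, mul_one] at hYc
        have h2 := mul_le_mul_of_nonneg_left hYc (mul_nonneg hB0 hR0)
        simp only [Nat.cast_zero, zero_mul, zero_add]
        linarith
      | succ t' iht =>
        intro Y hY hYc
        by_cases hheavy : ∃ g ∉ I, ∃ v, (Y.card : ℝ) < ((Y.filter fun y => y g = v).card : ℝ) * L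
        · obtain ⟨g, hg, v, hgv⟩ := hheavy
          have hchild := ihj (insert g I) (by rw [Finset.card_insert_of_notMem hg]; omega)
            (Function.update y0 g v) (Y.filter fun y => y g = v) (by
              intro y hy v' hv'
              rw [Finset.mem_filter] at hy
              by_cases hvg : v' = g
              · subst hvg; simp [hy.2]
              · rw [Function.update_of_ne hvg]
                exact hY y hy.1 v' ((Finset.mem_insert.1 hv').resolve_left hvg))
          have hcards : ((Y.filter fun y => y g = v).card : ℝ)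
              + ((Y.filter fun y => ¬ y g = v).card : ℝ) = Y.card := by
            exact_mod_cast Finset.card_filter_add_card_filter_not (fun y : κ → α => y g = v)
          have hrest := iht (Y.filter fun y => ¬ y g = v)
            (fun y hy => hY y (Finset.mem_filter.1 hy).1) (by
              refine le_trans ?_ hYc
              rw [pow_succ, mul_comm ((1 - 1 / L) ^ t'), ← mul_assoc]
              refine mul_le_mul_of_nonneg_right ?_ (pow_nonneg ?_ _)
              · have h1 : (Y.card : ℝ) / L ≤ (Y.filter fun y => y g = v).card := by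
                  rw [div_le_iff₀ hLpos]; exact hgv.le
                have h2 : (Y.card : ℝ) * (1 - 1 / L) = Y.card - Y.card / L := by ring
                rw [h2]; linarith
              · rw [sub_nonneg, div_le_one hLpos]; exact hL)
          have hcard' : (insert g I).card = I.card + 1 := Finset.card_insert_of_notMem hg
          rw [hcard'] at hchild
          have he2 : Fintype.card κ - (I.card + 1) = e - 1 := by omega
          rw [he2] at hchild
          have hs : (∑ x ∈ X, ∑ y ∈ Y, ∑ J, h J (fun v => x v (y v)))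
              = (∑ x ∈ X, ∑ y ∈ Y.filter (fun y => y g = v), ∑ J, h J (fun v => x v (y v)))
              + ∑ x ∈ X, ∑ y ∈ Y.filter (fun y => ¬ y g = v), ∑ J, h J (fun v => x v (y v)) := by
            rw [← Finset.sum_add_distrib]
            exact Finset.sum_congr rfl fun x _ => (Finset.sum_filter_add_sum_filter_not Y _ _).symm
          rw [hs, ← hcards]
          push_cast
          linarith
        · push Not at hheavy
          have h1 := drop_terms h B hmean hB X T L hLpos hT Y (Iᶜ)
            (fun g hg v => hheavy g (Finset.mem_compl.1 hg) v)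
          have h2 : 0 ≤ ∑ x ∈ X, ∑ y ∈ Y,
              ∑ J ∈ Finset.univ.filter (fun J => Disjoint J Iᶜ), h J (fun v => x v (y v)) := by
            refine Finset.sum_nonneg fun x _ => Finset.sum_nonneg fun y _ => ?_
            have h3 : Finset.univ.filter (fun J => Disjoint J Iᶜ) = I.powerset := by
              ext J
              rw [Finset.mem_filter, Finset.mem_powerset, disjoint_compl_right_iff]
              simp
            rw [h3]
            exact hpos I (by omega) _
          have h4 : ((Iᶜ : Finset κ).card : ℝ) * ((T + 2 * B ^ 2) / √L * X.card * Y.card)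
              ≤ D * X.card * Y.card := by
            have h40 : ((Iᶜ : Finset κ).card : ℝ) ≤ (Fintype.card κ : ℝ) := by
              exact_mod_cast Finset.card_le_univ _
            have h41 : 0 ≤ (T + 2 * B ^ 2) / √L * X.card * Y.card := by positivity
            calc ((Iᶜ : Finset κ).card : ℝ) * ((T + 2 * B ^ 2) / √L * X.card * Y.card)
                ≤ (Fintype.card κ : ℝ) * ((T + 2 * B ^ 2) / √L * X.card * Y.card) :=
                  mul_le_mul_of_nonneg_right h40 h41
              _ = D * X.card * Y.card := by rw [hD]; ring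
          have h5 : 0 ≤ ((t' + 1 : ℕ) : ℝ) * Ej * R * N ^ (e - 1) + B * Real.exp (-T) * R * N ^ e := by
            positivity
          linarith
    have hfin := inner t Y hY (by
      have h2 : (Y.card : ℝ) ≤ N ^ e := by
        rw [hN, he]
        exact_mod_cast card_fixed I y0 Y hY
      have h3 : 0 ≤ (1 - 1 / L) ^ t := pow_nonneg (by
        rw [sub_nonneg, div_le_one hLpos]; exact hL) _
      calc (Y.card : ℝ) * (1 - 1 / L) ^ t ≤ N ^ e * Real.exp (-T) :=
            mul_le_mul h2 ht h3 (by positivity)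
        _ = _ := mul_comm _ _)
    refine le_trans (neg_le_neg ?_) hfin
    -- compare the error terms
    rcases hN0.eq_or_lt with hNz | hNpos
    · have ht0 : (t : ℝ) = 0 := le_antisymm (by rw [hNz]; exact htN) (Nat.cast_nonneg _)
      rw [ht0]
      have : 0 ≤ (B * (0 / N) ^ (j + 1)) * R * N ^ e := by positivity
      have h6 : 0 ≤ (j : ℝ) * (B * Real.exp (-T)) * R * N ^ e := by positivity
      push_cast
      nlinarith
    · have h7 : (t : ℝ) / N ≤ 1 := by rw [div_le_one hNpos]; exact htN
      have h8 : (t : ℝ) * Ej * R * N ^ (e - 1) = (t / N) * Ej * R * N ^ e := by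
        obtain ⟨e', he'⟩ : ∃ e', e = e' + 1 := ⟨e - 1, by omega⟩
        rw [he', pow_succ, Nat.add_sub_cancel]
        field_simp
      rw [h8]
      have h9 : (t / N) * Ej + B * Real.exp (-T)
          ≤ B * (t / N) ^ (j + 1) + ((j + 1 : ℕ) : ℝ) * (B * Real.exp (-T)) := by
        have h10 : (t / N) * (j * (B * Real.exp (-T))) ≤ 1 * (j * (B * Real.exp (-T))) :=
          mul_le_mul_of_nonneg_right h7 (by positivity)
        rw [hEj, mul_add, pow_succ]
        push_cast
        linarith [mul_comm (t / N) (B * (t / N) ^ j), mul_assoc B ((t / N) ^ j) (t / N)]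
      have h11 := mul_le_mul_of_nonneg_right h9 (by positivity : 0 ≤ R * N ^ e)
      nlinarith

/-- The rectangle lemma. -/
theorem rect (u : ℕ) (hu : u ≤ Fintype.card κ) (h : Finset κ → (κ → S) → ℝ) (B : ℝ)
    (hmean : ∀ J, ∀ g ∈ J, ∀ z, ∑ s, h J (Function.update z g s) = 0)
    (hB : ∀ (F : Finset (Finset κ)) z, |∑ J ∈ F, h J z| ≤ B)
    (hpos : ∀ I : Finset κ, I.card < u → ∀ z, 0 ≤ ∑ J ∈ I.powerset, h J z)
    [Nonempty α] (T L : ℝ) (hL : 1 ≤ L) (hT0 : 0 ≤ T)
    (t : ℕ) (ht : (1 - 1 / L) ^ t ≤ Real.exp (-T)) (htN : (t : ℝ) ≤ Fintype.card α)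
    (X : Finset (κ → α → S)) (Y : Finset (κ → α)) :
      -((B * (t / Fintype.card α) ^ u + (u + 1) * (B * Real.exp (-T))) *
          Fintype.card (κ → α → S) * Fintype.card (κ → α))
        ≤ ∑ x ∈ X, ∑ y ∈ Y, ((∑ J, h J (fun v => x v (y v)))
          + Fintype.card κ * ((T + 2 * B ^ 2) / √L)) := by
  have hB0 : 0 ≤ B := (abs_nonneg _).trans (hB ∅ (fun _ => Classical.arbitrary S))
  have hsum : ∑ x ∈ X, ∑ y ∈ Y, ((∑ J, h J (fun v => x v (y v)))
          + Fintype.card κ * ((T + 2 * B ^ 2) / √L))
      = (∑ x ∈ X, ∑ y ∈ Y, ∑ J, h J (fun v => x v (y v)))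
          + Fintype.card κ * ((T + 2 * B ^ 2) / √L) * X.card * Y.card := by
    simp only [Finset.sum_add_distrib, Finset.sum_const, nsmul_eq_mul]
    ring
  have hcols : (Fintype.card (κ → α) : ℝ) = (Fintype.card α : ℝ) ^ Fintype.card κ := by
    rw [Fintype.card_fun]; push_cast; rfl
  rw [hsum]
  by_cases hT : (Fintype.card (κ → α → S) : ℝ) ≤ Real.exp T * X.card
  · have h1 := rect_aux u hu h B hmean hB hpos X T L hL hT0 hT t ht htN u ∅ (by simp)
      (fun _ => Classical.arbitrary α) Y (by simp)
    refine le_trans (neg_le_neg ?_) h1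
    rw [hcols, Finset.card_empty, Nat.sub_zero]
    refine mul_le_mul_of_nonneg_right (mul_le_mul_of_nonneg_right ?_ (Nat.cast_nonneg _))
      (by positivity)
    have : 0 ≤ B * Real.exp (-T) := by positivity
    linarith
  · push Not at hT
    have hX : (X.card : ℝ) ≤ Real.exp (-T) * Fintype.card (κ → α → S) := by
      rw [Real.exp_neg, ← div_eq_inv_mul, le_div_iff₀ (Real.exp_pos T)]
      linarith [mul_comm (Real.exp T) (X.card : ℝ)]
    have h1 : -(B * (X.card * Y.card)) ≤ ∑ x ∈ X, ∑ y ∈ Y, ∑ J, h J (fun v => x v (y v)) := by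
      have : ∑ x ∈ X, ∑ y ∈ Y, (-B) ≤ ∑ x ∈ X, ∑ y ∈ Y, ∑ J, h J (fun v => x v (y v)) :=
        Finset.sum_le_sum fun x _ => Finset.sum_le_sum fun y _ => (abs_le.1 (hB _ _)).1
      refine le_trans (le_of_eq ?_) this
      simp; ring
    have hY : (Y.card : ℝ) ≤ Fintype.card (κ → α) := by exact_mod_cast Finset.card_le_univ Y
    have h2 : B * (X.card * Y.card)
        ≤ B * (Real.exp (-T) * Fintype.card (κ → α → S) * Fintype.card (κ → α)) := by
      refine mul_le_mul_of_nonneg_left ?_ hB0
      exact mul_le_mul hX hY (Nat.cast_nonneg _) (by positivity)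
    have h3 : 0 ≤ Fintype.card κ * ((T + 2 * B ^ 2) / √L) * X.card * Y.card := by positivity
    have h4 : 0 ≤ (B * (t / Fintype.card α) ^ u + u * (B * Real.exp (-T))) *
          Fintype.card (κ → α → S) * Fintype.card (κ → α) := by positivity
    have h5 : (B * (t / Fintype.card α) ^ u + (u + 1) * (B * Real.exp (-T))) *
          Fintype.card (κ → α → S) * Fintype.card (κ → α)
        = (B * (t / Fintype.card α) ^ u + u * (B * Real.exp (-T))) *
          Fintype.card (κ → α → S) * Fintype.card (κ → α)
          + B * (Real.exp (-T) * Fintype.card (κ → α → S) * Fintype.card (κ → α)) := by ring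
    rw [h5]
    linarith

end Pool.Agent.Lib.MP_678664_lc_h67
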